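import Pool.Agent.Q69.Murre.Zero
import Pool.Agent.Q69.BB.All

/-!
# Bloch-Beilinson filtrations and the middle cases of Murre's conjectures
-/

open CategoryTheory AlgebraicGeometry

universe u v w

namespace Pool.Agent.Q69.Murre

open Pool.Agent.H914 Pool.Agent.H914.VarClass Pool.Agent.H914.VarClass.Obj Pool.Agent.W492.BB
  Pool.Agent.W550.Corr Pool.Agent.TH133 Pool.Agent.Q69.BB

set_option linter.unusedSectionVars false

variable {k : Type u} [Field k] {𝒱 : VarClass k} {C : TheoryData.{u, v, 0} 𝒱 ℚ}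
  [hC : IsChowProj C] {K : Type w} [Field K]
  {H : WeilTheoryData.{u, v, w} C K} [hH : IsWeilProj H] {X Y Z W T : 𝒱.Obj}

include hC hH

/-! ### From Murre's conjectures to a Bloch-Beilinson filtration -/

lemma ckFil_anti {π : ℕ → C.A (X.prod X)} (h : IsCK H X π) (i : ℕ) {n m : ℕ} (hnm : n ≤ m) :
    ckFil C π i m ≤ ckFil C π i n := by
  intro x hx
  rw [h.mem_ckFil] at hx ⊢
  exact ⟨hx.1, fun j hj => hx.2 j (by omega)⟩

/-- External products and the filtrations of product decompositions. -/
lemma ext_mem_ckFil {π : ℕ → C.A (X.prod X)} {ρ : ℕ → C.A (Y.prod Y)} (h : IsCK H X π)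
    (h' : IsCK H Y ρ) {i j m n : ℕ} {x : C.A X} {y : C.A Y} (hx : x ∈ ckFil C π i m)
    (hy : y ∈ ckFil C ρ j n) : C.ext x y ∈ ckFil C (prodCK C π ρ) (i + j) (m + n) := by
  rw [h.mem_ckFil] at hx
  rw [h'.mem_ckFil] at hy
  rw [(h.prod h').mem_ckFil]
  refine ⟨by exact_mod_cast ext_mem (H := H) hx.1 hy.1, fun r hr => ?_⟩
  unfold prodCK
  rw [act_sum]
  apply Finset.sum_eq_zero
  intro a _
  rw [act_tens_ext_ch (H := H)]
  by_cases ha : 2 * i + 1 - m ≤ a
  · rw [hx.2 a ha, TheoryData.ext_zero_left]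
  · by_cases hb : 2 * j + 1 - n ≤ r - a
    · rw [hy.2 _ hb, TheoryData.ext_zero_right]
    · omega

/-- The filtration given by a choice of Chow-Kunneth decompositions. -/
noncomputable def ckFiltration (π : ∀ X : 𝒱.Obj, ℕ → C.A (X.prod X))
    (hπ : ∀ X, IsCK H X (π X)) : Filtration C where
  F X i n := ckFil C (π X) i n
  le_gr X i n x hx := (((hπ X).mem_ckFil i n x).1 hx).1
  anti X i n := ckFil_anti (hπ X) i (Nat.le_succ n)

/-- Murre's conjectures for the chosen decompositions give a Bloch-Beilinson filtration. -/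
lemma ckFiltration_isBB (π : ∀ X : 𝒱.Obj, ℕ → C.A (X.prod X)) (hπ : ∀ X, IsCK H X (π X))
    (hS : ∀ X, SL H (fun i => cr (π X i))) (hB1 : ∀ X, MurreB1 H X) :
    IsBB H (ckFiltration π hπ) := by
  have hB : ∀ X : 𝒱.Obj, MurreB0 H X := fun X => (all_of_SL (isCK_cr (hπ X)) (hS X)).2.2.1
  have hD : ∀ X : 𝒱.Obj, MurreD H X := fun X => (all_of_SL (isCK_cr (hπ X)) (hS X)).1
  refine ⟨⟨?_, ?_, ?_⟩, ⟨?_, ?_, ?_⟩, ?_⟩
  · intro X i x
    change x ∈ ckFil C (π X) i 0 ↔ _
    rw [hB X (π X) (hπ X) i]
  · intro X i x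
    exact hD X (π X) (hπ X) i x
  · intro X i x hx
    have h1 : x ∈ ckFil C (π X) i (i + 1) := hx
    rw [hB1 X (π X) (hπ X) i] at h1
    exact (Submodule.mem_bot ℚ).1 h1
  · intro X i j m n x y hx hy
    have h1 := ext_mem_ckFil (hπ X) (hπ X) hx hy
    have h2 : C.mul x y = C.act (C.cograph (Obj.lift (𝟙 X) (𝟙 X))) (C.ext x y) := by
      rw [C.act_cograph, TheoryData.ext, map_mul, ← C.pull_comp, ← C.pull_comp, lift_fst,
        lift_snd, C.pull_id, C.pull_id]
    rw [h2]
    exact functorial_of_B0 hB ((hπ X).prod (hπ X)) (hπ X) (i := i + j) (i' := i + j)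
      (Pool.Agent.Y148.BB.gr_congr (by ring) (cograph_deg (H := H) _)) h1
  · intro X Y f i n y hy
    have h2 : C.up f y = C.act (C.cograph f) y := (C.act_cograph f y).symm
    rw [h2]
    exact functorial_of_B0 hB (hπ Y) (hπ X) (i := i) (i' := i)
      (Pool.Agent.Y148.BB.gr_congr (by ring) (cograph_deg (H := H) _)) hy
  · intro X Y f i j n x hij hx
    have h2 : C.down f x = C.act (C.graph f) x := (C.act_graph f x).symm
    rw [h2]
    refine functorial_of_B0 hB (hπ X) (hπ Y) (i := i) (i' := j)
      (Pool.Agent.Y148.BB.gr_congr ?_ (graph_deg (H := H) _)) hx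
    have h3 : (i : ℤ) + Y.dim = j + X.dim := by exact_mod_cast hij
    linarith
  · intro _ X i n Γ hΓ hk x hx
    change x ∈ ckFil C (π X) i n at hx
    change C.act Γ x ∈ ckFil C (π X) i (n + 1)
    rw [(hπ X).mem_ckFil] at hx ⊢
    refine ⟨act_mem0 C hΓ hx.1, fun j hj => ?_⟩
    have h1 : x = ∑ a ∈ Finset.range (2 * X.dim + 1), C.act (π X a) x := by
      rw [← act_sum, (hπ X).sum, act_dg]
    rw [h1, act_map_sum, act_map_sum]
    apply Finset.sum_eq_zero
    intro a _
    by_cases ha : 2 * i + 1 - n ≤ a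
    · rw [hx.2 a ha, TheoryData.act_map_zero, TheoryData.act_map_zero]
    · have hP := isCK_cr (hπ X)
      have h0 : cr (π X j) * cr Γ * cr (π X a) = 0 := by
        by_cases hja : a < j
        · exact NR_of_SL hP (hS X) (cr Γ) hΓ a j hja
        · have hja' : a = j := by omega
          subst hja'
          have e : 2 * (i : ℤ) - n = a := by omega
          have hht : HT H (cr (π X a) * cr Γ * cr (π X a)) := by
            refine HT.of ((cor0 C X).mul_mem ((cor0 C X).mul_mem ((hπ X).deg a) hΓ)
              ((hπ X).deg a)) ?_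
            apply ext_gr H
            intro m b hb
            rw [LinearMap.zero_apply, map_mul, map_mul, Module.End.mul_apply,
              Module.End.mul_apply, hP.actH_eq' _ _ hb]
            split_ifs with hm
            · subst hm
              have h5 : actH C X H (cr Γ) b = 0 := hk b (by rw [e]; exact hb)
              rw [h5, map_zero]
            · rw [map_zero, map_zero]
          have h6 := hS X _ hht a a le_rfl
          have h7 : cr (π X a) * (cr (π X a) * cr Γ * cr (π X a)) * cr (π X a) =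
              cr (π X a) * cr Γ * cr (π X a) := by
            calc cr (π X a) * (cr (π X a) * cr Γ * cr (π X a)) * cr (π X a) =
                (cr (π X a) * cr (π X a)) * cr Γ * (cr (π X a) * cr (π X a)) := by
                  simp only [mul_assoc]
              _ = _ := by
                  have h8 : cr (π X a) * cr (π X a) = cr (π X a) := ck_idem hP a
                  rw [h8]
          rw [← h7]
          exact h6
      have h2 : C.comp (π X a) (C.comp Γ (π X j)) = 0 := by
        rw [← comp_assoc]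
        rw [mul_assoc] at h0
        exact h0
      rw [← C.act_comp, ← C.act_comp, h2, C.act_zero]

/-! ### From a Bloch-Beilinson filtration to Murre's conjectures -/

/-- Homologically trivial self-correspondences are nilpotent, if there is a Bloch-Beilinson
filtration. -/
lemma isNilpotent_of_isBB {F : Filtration C} (hF : IsBB H F) (γ : Cor C X) (hγ : HT H γ) :
    IsNilpotent γ := by
  have hst := isBB_isStable hF
  have key : ∀ n : ℕ, uc (γ ^ n) ∈ F.F (X.prod X) X.dim n := by
    intro n
    induction n with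
    | zero =>
      exact (hF.bounded.zero _ _ _).2 (dg_mem C X)
    | succ n ih =>
      have h1 : uc (γ ^ (n + 1)) = C.act (tens C (dg C X) (uc γ)) (uc (γ ^ n)) := by
        rw [act_tens C (ch_comm C), tp_dg, dg_comp, pow_succ']
        rfl
      rw [h1]
      refine hst.shift (X.prod X) (X.prod X) X.dim X.dim n _ ?_ ?_ _ ih
      · have h2 := tens_mem C (dg_mem C X) hγ.1
        exact Pool.Agent.Y148.BB.gr_congr (by rw [dim_prod]; push_cast; ring) h2
      · left
        intro l
        refine kills_tens fun l' a b ha hb => Or.inr ?_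
        have h3 : H.cl (uc γ) = 0 := hγ.2
        rw [h3, TheoryData.act_zero]
  refine ⟨X.dim + 1, ?_⟩
  exact hF.bounded.top _ _ _ (key (X.dim + 1))

/-- Lifting of the Kunneth projectors. -/
lemma exists_ck_of_kunneth (hn : ∀ γ : Cor C X, HT H γ → IsNilpotent γ) (κ : ℕ → Cor C X)
    (hκ : ∀ i, κ i ∈ cor0 C X) (hact : ∀ (i : ℕ) (m : ℤ) (a : H.A X), a ∈ H.gr X m →
      actH C X H (κ i) a = if m = i then a else 0) :
    ∃ π : ℕ → C.A (X.prod X), IsCK H X π := by
  classical
  let f : (cor0 C X) →+* Module.End K (H.A X) :=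
    (actH C X H).comp (cor0 C X).val.toRingHom
  have hf : ∀ x : cor0 C X, f x = actH C X H x.1 := fun x => rfl
  have hker : ∀ x ∈ RingHom.ker f, IsNilpotent x := by
    intro x hx
    obtain ⟨n, hn⟩ := hn x.1 (HT.of x.2 hx)
    exact ⟨n, Subtype.ext hn⟩
  let κ' : ℕ → cor0 C X := fun i => ⟨κ i, hκ i⟩
  have hmul : ∀ i j : ℕ, f (κ' i) * f (κ' j) = if i = j then f (κ' i) else 0 := by
    intro i j
    apply ext_gr H
    intro m a ha
    rw [Module.End.mul_apply, hf, hf]
    change actH C X H (κ i) (actH C X H (κ j) a) = _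
    rw [hact j m a ha]
    split_ifs with h1 h2 h2
    · rw [hact i m a ha]
    · rw [hact i m a ha, if_neg (by omega)]
      rfl
    · rw [map_zero]
      change _ = actH C X H (κ i) a
      rw [hact i m a ha, if_neg (by omega)]
    · rw [map_zero]
      rfl
  let e : Fin (2 * X.dim + 1) → Module.End K (H.A X) := fun a => f (κ' a)
  have he : CompleteOrthogonalIdempotents e := by
    refine ⟨⟨?_, ?_⟩, ?_⟩
    · intro a
      change f (κ' a) * f (κ' a) = f (κ' a)
      rw [hmul, if_pos rfl]
    · intro a b hab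
      change f (κ' a) * f (κ' b) = 0
      rw [hmul, if_neg]
      intro h1
      exact hab (Fin.ext h1)
    · change ∑ i : Fin (2 * X.dim + 1), f (κ' i) = 1
      rw [Fin.sum_univ_eq_sum_range (fun i => f (κ' i))]
      apply ext_gr H
      intro m a ha
      rw [LinearMap.sum_apply]
      have h1 : ∀ i ∈ Finset.range (2 * X.dim + 1), f (κ' i) a =
          if m = (i : ℤ) then a else 0 := fun i _ => hact i m a ha
      rw [Finset.sum_congr rfl h1]
      change _ = a
      by_cases hm : 0 ≤ m ∧ m ≤ 2 * X.dim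
      · obtain ⟨n, rfl⟩ := Int.eq_ofNat_of_zero_le hm.1
        rw [Finset.sum_eq_single_of_mem n (by rw [Finset.mem_range]; omega), if_pos rfl]
        intro j _ hj
        rw [if_neg]
        intro h2
        exact hj (by exact_mod_cast h2.symm)
      · have h2 : a = 0 := by
          rw [← Submodule.mem_bot K]
          rcases not_and_or.1 hm with h3 | h3
          · rw [H.gr_neg X m (by omega)] at ha
            exact ha
          · rw [gr_top H (by omega)] at ha
            exact ha
        rw [h2]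
        apply Finset.sum_eq_zero
        intro j _
        split_ifs <;> rfl
  obtain ⟨e', he', hee'⟩ := CompleteOrthogonalIdempotents.lift_of_isNilpotent_ker f hker he
    (fun a => ⟨_, rfl⟩)
  let P : ℕ → Cor C X := fun i => if hi : i < 2 * X.dim + 1 then (e' ⟨i, hi⟩ : Cor C X) else 0
  have hP1 : ∀ i (hi : i < 2 * X.dim + 1), P i = (e' ⟨i, hi⟩ : Cor C X) := fun i hi => dif_pos hi
  have hP2 : ∀ i, ¬ i < 2 * X.dim + 1 → P i = 0 := fun i hi => dif_neg hi
  refine ⟨fun i => uc (P i), ?_⟩
  apply isCK_of (H := H) (P := P)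
  · intro i
    by_cases hi : i < 2 * X.dim + 1
    · rw [hP1 i hi]
      exact (e' ⟨i, hi⟩).2
    · rw [hP2 i hi]
      exact (cor0 C X).zero_mem
  · intro i hi
    exact hP2 i (by omega)
  · intro i j
    by_cases hi : i < 2 * X.dim + 1
    · by_cases hj : j < 2 * X.dim + 1
      · rw [hP1 i hi, hP1 j hj]
        split_ifs with hij
        · subst hij
          exact congrArg Subtype.val (he'.idem ⟨i, hi⟩)
        · exact congrArg Subtype.val (he'.ortho (i := ⟨i, hi⟩) (j := ⟨j, hj⟩) (by
            intro h1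
            exact hij (congrArg Fin.val h1)))
      · rw [hP2 j hj, mul_zero]
        split_ifs with hij
        · subst hij
          exact absurd hi hj
        · rfl
    · rw [hP2 i hi, zero_mul]
      split_ifs <;> rfl
  · rw [← Fin.sum_univ_eq_sum_range (fun i => P i)]
    have h2 : ∀ a : Fin (2 * X.dim + 1), P a = (e' a : Cor C X) := fun a => hP1 a a.2
    rw [Finset.sum_congr rfl fun a _ => h2 a]
    have h3 := congrArg Subtype.val he'.complete
    rw [AddSubmonoidClass.coe_finsetSum] at h3
    exact h3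
  · intro i m a ha
    by_cases hi : i < 2 * X.dim + 1
    · rw [hP1 i hi]
      have h1 : f (e' ⟨i, hi⟩) = f (κ' i) := congrFun hee' ⟨i, hi⟩
      change f (e' ⟨i, hi⟩) a = _
      rw [h1]
      exact hact i m a ha
    · rw [hP2 i hi, map_zero, LinearMap.zero_apply]
      split_ifs with hm
      · rw [gr_top H (by push_cast at *; omega), Submodule.mem_bot] at ha
        rw [ha]
      · rfl

/-- The projector `π_j` shifts the steps `F^n CH^i` with `n ≠ 2i - j`. -/
lemma shift_of_isBB {F : Filtration C} (hF : IsBB H F) (hK : KunnethConjecture H)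
    {π : ℕ → C.A (X.prod X)} (hπ : IsCK H X π) {i n j : ℕ} (hj : (j : ℤ) ≠ 2 * i - n) {x : C.A X}
    (hx : F.Mem i n x) (hxx : C.act (π j) x = x) : F.Mem i (n + 1) x := by
  rw [← hxx]
  refine hF.motivic hK X i n (π j) (hπ.deg j) ?_ x hx
  intro a ha
  exact hπ.act_ne j _ a (Ne.symm hj) ha

/-- (D) and the second half of (B), from a Bloch-Beilinson filtration. -/
lemma vanish_of_isBB {F : Filtration C} (hF : IsBB H F) (hK : KunnethConjecture H)
    {π : ℕ → C.A (X.prod X)} (hπ : IsCK H X π) {i j : ℕ} {x : C.A X} (hx : C.Deg i x)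
    (h : j < i ∨ 2 * i < j ∨ (2 * i ≤ j ∧ H.cl x = 0)) : C.act (π j) x = 0 := by
  have hidem : C.act (π j) (C.act (π j) x) = C.act (π j) x := by
    rw [← C.act_comp, hπ.idem]
  have h0 : F.Mem i 0 (C.act (π j) x) := (hF.bounded.zero _ _ _).2 (act_mem0 C (hπ.deg j) hx)
  apply hF.bounded.top X i
  have key : ∀ n : ℕ, n ≤ i + 1 → F.Mem i n (C.act (π j) x) := by
    intro n
    induction n with
    | zero => exact fun _ => h0
    | succ n ih =>
      intro hn
      by_cases hn0 : n = 0
      · subst hn0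
        rcases h with h | h | h
        · exact shift_of_isBB hF hK hπ (by push_cast; omega) h0 hidem
        · exact shift_of_isBB hF hK hπ (by push_cast; omega) h0 hidem
        · refine (hF.bounded.one _ _ _).2 ⟨act_mem0 C (hπ.deg j) hx, ?_⟩
          rw [cl_act, h.2, TheoryData.act_map_zero]
      · exact shift_of_isBB hF hK hπ (by omega) (ih (by omega)) hidem
  exact key (i + 1) le_rfl

/-- The Kunneth conjecture and a Bloch-Beilinson filtration give (A), the middle case of (D) and
the vanishing on zero-cycles. -/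
lemma middle_of_isBB {F : Filtration C} (hF : IsBB H F) (hK : KunnethConjecture H) (X : 𝒱.Obj) :
    ∃ π : ℕ → C.A (X.prod X), IsCK H X π ∧ MiddleD C H π ∧
      ckFil C π X.dim (X.dim + 1) = ⊥ := by
  choose κ hκ hκ' using hK X
  obtain ⟨π, hπ⟩ := exists_ck_of_kunneth (isNilpotent_of_isBB hF) (fun i => cr (κ i)) hκ
    (fun i m a ha => hκ' i m a ha)
  refine ⟨π, hπ, fun γ hγ h0 => ?_, ?_⟩
  · have hs : IsCK H (X.prod X) (selfProd C π π) := hπ.dual.prod hπ
    rw [hs.mem_ckFil]
    exact ⟨hγ, fun j hj => vanish_of_isBB hF hK hs hγ (Or.inr (Or.inr ⟨by omega, h0⟩))⟩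
  · rw [eq_bot_iff]
    intro x hx
    rw [hπ.mem_ckFil] at hx
    rw [Submodule.mem_bot]
    have h1 : x = ∑ j ∈ Finset.range (2 * X.dim + 1), C.act (π j) x := by
      rw [← act_sum, hπ.sum, act_dg]
    rw [h1]
    apply Finset.sum_eq_zero
    intro j _
    by_cases hj : j < X.dim
    · exact vanish_of_isBB hF hK hπ hx.1 (Or.inl hj)
    · exact hx.2 j (by omega)

omit hC hH in
/-- The Kunneth conjecture and the existence of a Bloch-Beilinson filtration, in terms of the middle
dimension of self-products and of zero-cycles. -/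
theorem isBB_iff_middle (C : TheoryData.{u, v, 0} 𝒱 ℚ) [hC : IsChowComplex C] {K : Type w}
    [Field K] (H : WeilTheoryData.{u, v, w} C K) [IsWeilProj H] :
    (KunnethConjecture H ∧ ∃ F, IsBB H F) ↔
      ∀ X : 𝒱.Obj, ∃ π : ℕ → C.A (X.prod X), IsCK H X π ∧ MiddleD C H π ∧
        ckFil C π X.dim (X.dim + 1) = ⊥ := by
  constructor
  · rintro ⟨hK, F, hF⟩ X
    exact middle_of_isBB hF hK X
  · intro h
    choose π hπ hM hZ using h
    have hS : ∀ X, SL H (fun i => cr (π X i)) := fun X => SL_of_middle (hπ X) (hM X)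
    have hB : ∀ X : 𝒱.Obj, MurreB0 H X := fun X => (all_of_SL (isCK_cr (hπ X)) (hS X)).2.2.1
    refine ⟨fun X m => ⟨π X m, (hπ X).deg m, fun l a ha => (hπ X).actH_eq m l ha⟩,
      ckFiltration π hπ, ckFiltration_isBB π hπ hS ?_⟩
    exact murreB1_of_zero hC.blochSrinivas hB fun X =>
      ⟨π X, hπ X, fun j hj x hx => zero_of_ckFil (hπ X) (hZ X) j hj x hx⟩

end Pool.Agent.Q69.Murre
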