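import Pool.Agent.TH133.Defs

/-!
# Murre's conjectures for the motives `(X, p, n)`
-/

open CategoryTheory AlgebraicGeometry

universe u v w

namespace Pool.Agent.Q69.Murre

open Pool.Agent.H914 Pool.Agent.H914.VarClass Pool.Agent.H914.VarClass.Obj Pool.Agent.W492.BB
  Pool.Agent.TH133

variable {k : Type u} [Field k] {𝒱 : VarClass k} {C : TheoryData.{u, v, 0} 𝒱 ℚ} {X : 𝒱.Obj}
  {K : Type w} [Field K] (H : WeilTheoryData.{u, v, w} C K)

/-- `q` is a Chow-Kunneth decomposition `M = ⊕ M_j`, `M_j = (X, q j)`, of the motive `M = (X, p)`: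
the `q j` (`j ∈ ℤ`, almost all zero) are mutually orthogonal idempotent self-correspondences of
degree zero with sum `p`, and `q j` acts as `p` on `H^j(X)` and as zero on `H^m(X)`, `m ≠ j`. (The
decompositions of the twisted motive `(X, p, n)` are the same up to renumbering.) -/
structure IsCKOf (p : C.A (X.prod X)) (q : ℤ → C.A (X.prod X)) : Prop where
  deg : ∀ j, C.Deg X.dim (q j)
  idem : ∀ j, C.comp (q j) (q j) = q j
  orth : ∀ i j, i ≠ j → C.comp (q i) (q j) = 0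
  sum : ∃ s : Finset ℤ, (∀ j ∉ s, q j = 0) ∧ ∑ j ∈ s, q j = p
  act_self : ∀ (j : ℤ) (a : H.A X), H.Deg j a → H.act (H.cl (q j)) a = H.act (H.cl p) a
  act_ne : ∀ (j m : ℤ) (a : H.A X), m ≠ j → H.Deg m a → H.act (H.cl (q j)) a = 0

/-- The step `F^ν CH^i(M) = ⊕ CH^i(M_j)`, the sum over `j ≤ 2i - ν`, where
`CH^i(M_j) = (q_j)_* CH^i(X)`. -/
noncomputable def motFil (C : TheoryData.{u, v, 0} 𝒱 ℚ) {X : 𝒱.Obj} (q : ℤ → C.A (X.prod X))
    (i : ℕ) (ν : ℤ) : Submodule ℚ (C.A X) :=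
  ⨆ (j : ℤ) (_ : j ≤ 2 * i - ν), (C.gr X i).map (C.actL (q j))

/-- The property (B) of the Chow-Kunneth decomposition `q`: `CH^i(M_j) = 0` for `j > 2i`. -/
def MotB (C : TheoryData.{u, v, 0} 𝒱 ℚ) {X : 𝒱.Obj} (q : ℤ → C.A (X.prod X)) : Prop :=
  ∀ (i : ℕ) (j : ℤ), 2 * i < j → ∀ x : C.A X, C.Deg i x → C.act (q j) x = 0

/-- The property (D) of the Chow-Kunneth decomposition `q`: the homologically trivial classes in
`CH^i(M_(2i))` are zero. -/
def MotD (q : ℤ → C.A (X.prod X)) : Prop :=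
  ∀ (i : ℕ) (x : C.A X), C.Deg i x → H.cl x = 0 → C.act (q (2 * i)) x = 0

/-- Murre's conjectures (A), (B), (C), (D) for the motive `M = (X, p)`. -/
structure MurreConj (X : 𝒱.Obj) (p : C.A (X.prod X)) : Prop where
  exists_BD : ∃ q, IsCKOf H p q ∧ MotB C q ∧ MotD H q
  indep : ∀ q q', IsCKOf H p q → IsCKOf H p q' → ∀ (i : ℕ) (ν : ℤ),
    motFil C q i ν = motFil C q' i ν

end Pool.Agent.Q69.Murre
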