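import Pool.Agent.Q69.Murre.Main
import Pool.Agent.Q69.Murre.MotDefs

/-!
# Murre's conjectures for all motives
-/

open CategoryTheory AlgebraicGeometry

universe u v w

namespace Pool.Agent.Q69.Murre

open Pool.Agent.H914 Pool.Agent.H914.VarClass Pool.Agent.H914.VarClass.Obj Pool.Agent.W492.BB
  Pool.Agent.W550.Corr Pool.Agent.TH133

set_option linter.unusedSectionVars false

variable {k : Type u} [Field k] {𝒱 : VarClass k} {C : TheoryData.{u, v, 0} 𝒱 ℚ}
  [hC : IsChowProj C] {K : Type w} [Field K]
  {H : WeilTheoryData.{u, v, w} C K} [hH : IsWeilProj H] {X Y Z W : 𝒱.Obj}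

include hC hH

/-- Existence of Chow-Kunneth decompositions of direct factors. -/
lemma exists_ck_factor (hn : ∀ γ : Cor C X, HT H γ → IsNilpotent γ) {P : ℕ → Cor C X}
    (h : IsCK H X P) {p : Cor C X} (hp : p ∈ cor0 C X) (hpp : p * p = p) :
    ∃ q : ℕ → Cor C X, (∀ i, q i ∈ cor0 C X) ∧ (∀ i, 2 * X.dim < i → q i = 0) ∧
      (∀ i j, q i * q j = if i = j then q i else 0) ∧
      (∑ i ∈ Finset.range (2 * X.dim + 1), q i = p) ∧
      ∀ (i : ℕ) (m : ℤ) (a : H.A X), a ∈ H.gr X m →
        actH C X H (q i) a = if m = i then actH C X H p a else 0 := by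
  classical
  let f : (cor0 C X) →+* Module.End K (H.A X) :=
    (actH C X H).comp (cor0 C X).val.toRingHom
  have hf : ∀ x : cor0 C X, f x = actH C X H x.1 := fun x => rfl
  have hker : ∀ x ∈ RingHom.ker f, IsNilpotent x := by
    intro x hx
    obtain ⟨n, hn⟩ := hn x.1 (HT.of x.2 hx)
    exact ⟨n, Subtype.ext hn⟩
  let p' : cor0 C X := ⟨p, hp⟩
  let P' : ℕ → cor0 C X := fun i => ⟨P i, ck_mem h i⟩
  have hp' : p' * p' = p' := Subtype.ext hpp
  have hP' : ∀ i j, P' i * P' j = if i = j then P' i else 0 := by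
    intro i j
    apply Subtype.ext
    have h1 := h.mul_eq i j
    change P i * P j = _
    rw [h1]
    split_ifs <;> rfl
  have hcomm : ∀ i, f (P' i) * f p' = f p' * f (P' i) := by
    intro i
    apply ext_gr H
    intro m a ha
    rw [Module.End.mul_apply, Module.End.mul_apply, hf, hf]
    change actH C X H (P i) (actH C X H p a) = actH C X H p (actH C X H (P i) a)
    rw [h.actH_eq' _ _ ha, h.actH_eq' _ _ (actH_mem0 hp ha)]
    split_ifs
    · rfl
    · rw [map_zero]
  have hfp : f p' * f p' = f p' := by rw [← map_mul, hp']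
  have hfP : ∀ i j, f (P' i) * f (P' j) = if i = j then f (P' i) else 0 := by
    intro i j
    rw [← map_mul, hP']
    split_ifs
    · rfl
    · exact map_zero f
  let e : Option (Fin (2 * X.dim + 1)) → Module.End K (H.A X) := fun o =>
    match o with
    | none => f (1 - p')
    | some a => f (p' * P' a)
  have hprod : ∀ i j : ℕ, f (p' * P' i) * f (p' * P' j) =
      if i = j then f (p' * P' i) else 0 := by
    intro i j
    rw [map_mul, map_mul]
    calc f p' * f (P' i) * (f p' * f (P' j)) = f p' * (f (P' i) * f p') * f (P' j) := by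
          simp only [mul_assoc]
      _ = (f p' * f p') * (f (P' i) * f (P' j)) := by rw [hcomm]; simp only [mul_assoc]
      _ = _ := by
          rw [hfp, hfP]
          split_ifs
          · rfl
          · rw [mul_zero]
  have hne : ∀ i : ℕ, f (1 - p') * f (p' * P' i) = 0 := by
    intro i
    rw [← map_mul, ← mul_assoc, sub_mul, one_mul, hp', sub_self, zero_mul, map_zero]
  have hne' : ∀ i : ℕ, f (p' * P' i) * f (1 - p') = 0 := by
    intro i
    rw [map_mul, ← hcomm, mul_assoc, ← map_mul f p', mul_sub, mul_one, hp', sub_self, map_zero,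
      mul_zero]
  have he : CompleteOrthogonalIdempotents e := by
    refine ⟨⟨?_, ?_⟩, ?_⟩
    · intro o
      match o with
      | none =>
        change f (1 - p') * f (1 - p') = f (1 - p')
        rw [← map_mul]
        congr 1
        rw [mul_sub, mul_one, sub_mul, one_mul, hp', sub_self, sub_zero]
      | some a =>
        change f (p' * P' a) * f (p' * P' a) = f (p' * P' a)
        rw [hprod, if_pos rfl]
    · intro o o' hoo
      match o, o' with
      | none, none => exact absurd rfl hoo
      | none, some a => exact hne a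
      | some a, none => exact hne' a
      | some a, some b =>
        change f (p' * P' a) * f (p' * P' b) = 0
        rw [hprod, if_neg]
        intro hab
        exact hoo (by rw [Fin.ext hab])
    · rw [Fintype.sum_option]
      change f (1 - p') + ∑ i : Fin (2 * X.dim + 1), f (p' * P' i) = 1
      have h1 : ∑ i : Fin (2 * X.dim + 1), f (p' * P' i) = f p' := by
        rw [← map_sum, ← Finset.mul_sum, Fin.sum_univ_eq_sum_range (fun i => P' i)]
        have h2 : ∑ i ∈ Finset.range (2 * X.dim + 1), P' i = 1 := by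
          apply Subtype.ext
          have h3 := h.sum_eq
          have h4 : ((∑ i ∈ Finset.range (2 * X.dim + 1), P' i : cor0 C X) : Cor C X) =
            ∑ i ∈ Finset.range (2 * X.dim + 1), P i := by
            rw [AddSubmonoidClass.coe_finsetSum]
          rw [h4, h3]
          rfl
        rw [h2, mul_one]
      rw [h1, ← map_add, sub_add_cancel, map_one]
  obtain ⟨e', he', hee'⟩ := CompleteOrthogonalIdempotents.lift_of_isNilpotent_ker f hker he
    (fun o => by
      match o with
      | none => exact ⟨_, rfl⟩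
      | some a => exact ⟨_, rfl⟩)
  have hfe : ∀ a : Fin (2 * X.dim + 1), f (e' (some a)) = f (p' * P' a) := fun a =>
    congrFun hee' (some a)
  have hfn : f (e' none) = f (1 - p') := congrFun hee' none
  obtain ⟨g, hg⟩ : ∃ g : cor0 C X, g = 1 - e' none := ⟨_, rfl⟩
  have hgsum : ∑ a : Fin (2 * X.dim + 1), e' (some a) = g := by
    have h1 := he'.complete
    rw [Fintype.sum_option] at h1
    rw [hg, ← h1]
    abel
  have hgg : g * g = g := by
    have h1 : e' none * e' none = e' none := he'.idem none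
    rw [hg, mul_sub, mul_one, sub_mul, one_mul, h1, sub_self, sub_zero]
  have hfg : f g = f p' := by
    rw [hg, map_sub, hfn, map_sub, map_one]
    abel
  obtain ⟨u, hu⟩ : ∃ u : cor0 C X, u = g * p' + (1 - g) * (1 - p') := ⟨_, rfl⟩
  have hfu : f u = 1 := by
    have h1 : f (1 - p') * f (1 - p') = f (1 - p') := by
      rw [← map_mul]
      congr 1
      rw [mul_sub, mul_one, sub_mul, one_mul, hp', sub_self, sub_zero]
    have h2 : f (1 - g) = f (1 - p') := by rw [map_sub, map_sub, hfg]
    rw [hu, map_add, map_mul, map_mul, h2, h1, hfg, hfp, ← map_add, add_sub_cancel, map_one]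
  have huu : IsUnit u := by
    have h1 : IsNilpotent (1 - u) := hker _ (by
      rw [RingHom.mem_ker, map_sub, map_one, hfu, sub_self])
    have h2 := h1.isUnit_one_sub
    rwa [sub_sub_cancel] at h2
  obtain ⟨v, hvu⟩ := huu.exists_left_inv
  have huv : u * v = 1 := by
    obtain ⟨v', huv'⟩ := huu.exists_right_inv
    have h1 : v = v' := by
      rw [← mul_one v, ← huv', ← mul_assoc, hvu, one_mul]
    rw [h1, huv']
  have hfv : f v = 1 := by
    have h1 := congrArg f hvu
    rw [map_mul, hfu, mul_one, map_one] at h1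
    exact h1
  have hgu : g * u = u * p' := by
    have g1 : g * (1 - g) = 0 := by rw [mul_sub, mul_one, hgg, sub_self]
    have g2 : (1 - p') * p' = 0 := by rw [sub_mul, one_mul, hp', sub_self]
    have h1 : g * u = g * p' := by
      rw [hu, mul_add, ← mul_assoc, hgg, ← mul_assoc, g1, zero_mul, add_zero]
    have h2 : u * p' = g * p' := by
      rw [hu, add_mul, mul_assoc, hp', mul_assoc, g2, mul_zero, add_zero]
    rw [h1, h2]
  let q' : ℕ → cor0 C X := fun i =>
    if hi : i < 2 * X.dim + 1 then v * e' (some ⟨i, hi⟩) * u else 0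
  have hq'1 : ∀ i (hi : i < 2 * X.dim + 1), q' i = v * e' (some ⟨i, hi⟩) * u :=
    fun i hi => dif_pos hi
  have hq'2 : ∀ i, ¬ i < 2 * X.dim + 1 → q' i = 0 := fun i hi => dif_neg hi
  have hq'mul : ∀ i j, q' i * q' j = if i = j then q' i else 0 := by
    intro i j
    by_cases hi : i < 2 * X.dim + 1
    · by_cases hj : j < 2 * X.dim + 1
      · rw [hq'1 i hi, hq'1 j hj]
        have h1 : v * e' (some ⟨i, hi⟩) * u * (v * e' (some ⟨j, hj⟩) * u) =
            v * (e' (some ⟨i, hi⟩) * (u * v) * e' (some ⟨j, hj⟩)) * u := by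
          simp only [mul_assoc]
        rw [h1, huv, mul_one]
        split_ifs with hij
        · subst hij
          have h2 : e' (some ⟨i, hi⟩) * e' (some ⟨i, hi⟩) = e' (some ⟨i, hi⟩) := he'.idem _
          rw [h2]
        · have h2 : e' (some ⟨i, hi⟩) * e' (some ⟨j, hj⟩) = 0 := he'.ortho (by
            intro h3
            apply hij
            have h4 := Option.some.inj h3
            exact congrArg Fin.val h4)
          rw [h2, mul_zero, zero_mul]
      · rw [hq'2 j hj, mul_zero]
        split_ifs with hij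
        · subst hij
          exact absurd hi hj
        · rfl
    · rw [hq'2 i hi, zero_mul]
      split_ifs <;> rfl
  refine ⟨fun i => (q' i : Cor C X), fun i => (q' i).2, ?_, ?_, ?_, ?_⟩
  · intro i hi
    change (q' i : Cor C X) = 0
    rw [hq'2 i (by omega)]
    rfl
  · intro i j
    have h1 := congrArg (Subtype.val) (hq'mul i j)
    change (q' i : Cor C X) * (q' j : Cor C X) = _ at h1
    change (q' i : Cor C X) * (q' j : Cor C X) = _
    rw [h1]
    split_ifs <;> rfl
  · have h1 : ∑ i ∈ Finset.range (2 * X.dim + 1), q' i = p' := by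
      rw [← Fin.sum_univ_eq_sum_range (fun i => q' i)]
      have h2 : ∀ a : Fin (2 * X.dim + 1), q' a = v * e' (some a) * u := fun a => hq'1 a a.2
      rw [Finset.sum_congr rfl fun a _ => h2 a, ← Finset.sum_mul, ← Finset.mul_sum, hgsum,
        mul_assoc, hgu, ← mul_assoc, hvu, one_mul]
    have h2 := congrArg (Subtype.val) h1
    rw [AddSubmonoidClass.coe_finsetSum] at h2
    exact h2
  · intro i m a ha
    change f (q' i) a = _
    by_cases hi : i < 2 * X.dim + 1
    · rw [hq'1 i hi, map_mul, map_mul, hfv, one_mul, hfu, mul_one, hfe, map_mul,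
        Module.End.mul_apply]
      change actH C X H p (actH C X H (P i) a) = _
      rw [h.actH_eq' _ _ ha]
      split_ifs
      · rfl
      · rw [map_zero]
    · rw [hq'2 i hi, map_zero, LinearMap.zero_apply]
      split_ifs with hm
      · rw [gr_top H (by push_cast at *; omega), Submodule.mem_bot] at ha
        rw [ha, map_zero]
      · rfl

omit hC hH in
/-- A family indexed by the natural numbers as a family indexed by the integers. -/
noncomputable def toZ (π : ℕ → C.A (X.prod X)) : ℤ → C.A (X.prod X) :=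
  fun j => if 0 ≤ j then π j.toNat else 0

omit hC hH in
lemma toZ_natCast (π : ℕ → C.A (X.prod X)) (n : ℕ) : toZ π n = π n := by
  unfold toZ
  rw [if_pos (by omega)]
  rfl

omit hC hH in
lemma toZ_neg (π : ℕ → C.A (X.prod X)) {j : ℤ} (hj : j < 0) : toZ π j = 0 := by
  unfold toZ
  rw [if_neg (by omega)]

/-- The product in the ring of self-correspondences, for families indexed by the integers. -/
lemma IsCKOf.mul_eq {p : C.A (X.prod X)} {q : ℤ → C.A (X.prod X)} (h : IsCKOf H p q) (i j : ℤ) :
    cr (q i) * cr (q j) = if i = j then cr (q i) else 0 := by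
  split_ifs with hij
  · subst hij
    exact h.idem i
  · exact h.orth j i (Ne.symm hij)

lemma IsCKOf.mul_left {p : C.A (X.prod X)} {q : ℤ → C.A (X.prod X)} (h : IsCKOf H p q) (i : ℤ) :
    cr p * cr (q i) = cr (q i) := by
  obtain ⟨s, hs, hs'⟩ := h.sum
  have h1 : cr p = ∑ j ∈ s, cr (q j) := hs'.symm
  rw [h1, Finset.sum_mul]
  by_cases hi : i ∈ s
  · rw [Finset.sum_eq_single_of_mem i hi, h.mul_eq, if_pos rfl]
    intro j _ hj
    rw [h.mul_eq, if_neg hj]
  · have h2 : cr (q i) = 0 := hs i hi
    rw [h2]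
    exact Finset.sum_eq_zero fun j _ => mul_zero _

lemma IsCKOf.mul_right {p : C.A (X.prod X)} {q : ℤ → C.A (X.prod X)} (h : IsCKOf H p q) (i : ℤ) :
    cr (q i) * cr p = cr (q i) := by
  obtain ⟨s, hs, hs'⟩ := h.sum
  have h1 : cr p = ∑ j ∈ s, cr (q j) := hs'.symm
  rw [h1, Finset.mul_sum]
  by_cases hi : i ∈ s
  · rw [Finset.sum_eq_single_of_mem i hi, h.mul_eq, if_pos rfl]
    intro j _ hj
    rw [h.mul_eq, if_neg (Ne.symm hj)]
  · have h2 : cr (q i) = 0 := hs i hi
    rw [h2]
    exact Finset.sum_eq_zero fun j _ => zero_mul _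

lemma IsCKOf.idem_p {p : C.A (X.prod X)} {q : ℤ → C.A (X.prod X)} (h : IsCKOf H p q) :
    cr p * cr p = cr p := by
  obtain ⟨s, hs, hs'⟩ := h.sum
  have h1 : cr p = ∑ j ∈ s, cr (q j) := hs'.symm
  have h2 : (∑ j ∈ s, cr (q j)) * cr p = ∑ j ∈ s, cr (q j) := by
    rw [Finset.sum_mul]
    exact Finset.sum_congr rfl fun j _ => h.mul_right j
  rw [← h1] at h2
  exact h2

lemma IsCKOf.mem_p {p : C.A (X.prod X)} {q : ℤ → C.A (X.prod X)} (h : IsCKOf H p q) :
    cr p ∈ cor0 C X := by
  obtain ⟨s, hs, hs'⟩ := h.sum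
  have h1 : cr p = ∑ j ∈ s, cr (q j) := hs'.symm
  rw [h1]
  exact (cor0 C X).sum_mem fun j _ => h.deg j

lemma IsCKOf.actH_eq {p : C.A (X.prod X)} {q : ℤ → C.A (X.prod X)} (h : IsCKOf H p q) (i m : ℤ)
    {a : H.A X} (ha : a ∈ H.gr X m) :
    actH C X H (cr (q i)) a = if m = i then actH C X H (cr p) a else 0 := by
  split_ifs with hm
  · subst hm
    exact h.act_self m a ha
  · exact h.act_ne i m a hm ha

lemma IsCKOf.out {p : C.A (X.prod X)} {q : ℤ → C.A (X.prod X)} (h : IsCKOf H p q)
    (hn : ∀ γ : Cor C X, HT H γ → IsNilpotent γ) {j : ℤ} (hj : j < 0 ∨ 2 * (X.dim : ℤ) < j) :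
    cr (q j) = 0 := by
  have h1 : HT H (cr (q j)) := by
    refine HT.of (h.deg j) ?_
    apply ext_gr H
    intro m a ha
    rw [h.actH_eq j m ha, LinearMap.zero_apply]
    split_ifs with hm
    · subst hm
      rcases hj with hj | hj
      · rw [H.gr_neg X m hj, Submodule.mem_bot] at ha
        rw [ha, map_zero]
      · rw [gr_top H hj, Submodule.mem_bot] at ha
        rw [ha, map_zero]
    · rfl
  obtain ⟨n, hn'⟩ := hn _ h1
  have h2 : ∀ n : ℕ, cr (q j) ^ (n + 1) = cr (q j) := by
    intro n
    induction n with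
    | zero => rw [zero_add, pow_one]
    | succ n ih => rw [pow_succ, ih, h.mul_eq, if_pos rfl]
  rcases n with _ | n
  · rw [pow_zero] at hn'
    rw [← one_mul (cr (q j)), hn', zero_mul]
  · rw [← h2 n, hn']

/-- Membership in the filtration of a motive. -/
lemma IsCKOf.mem_motFil {p : C.A (X.prod X)} {q : ℤ → C.A (X.prod X)} (h : IsCKOf H p q)
    (i : ℕ) (ν : ℤ) (x : C.A X) : x ∈ motFil C q i ν ↔
      x ∈ C.gr X i ∧ actC C X (cr p) x = x ∧ ∀ j : ℤ, 2 * i - ν < j → actC C X (cr (q j)) x = 0 := by
  constructor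
  · intro hx
    have h1 : motFil C q i ν ≤ C.gr X i ⊓ LinearMap.ker (actC C X (cr p) - 1) ⊓
        ⨅ (j : ℤ) (_ : 2 * i - ν < j), LinearMap.ker (actC C X (cr (q j))) := by
      unfold motFil
      refine iSup₂_le fun j hj => ?_
      rintro _ ⟨y, hy, rfl⟩
      have e1 : C.actL (q j) y = actC C X (cr (q j)) y := rfl
      refine ⟨⟨act_mem0 C (h.deg j) hy, ?_⟩, ?_⟩
      · rw [SetLike.mem_coe, LinearMap.mem_ker, LinearMap.sub_apply, e1, ← actC_mul (H := H),
          h.mul_left]
        exact sub_self _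
      · rw [SetLike.mem_coe, Submodule.mem_iInf]
        intro m
        rw [Submodule.mem_iInf]
        intro hm
        rw [LinearMap.mem_ker, e1, ← actC_mul (H := H), h.mul_eq, if_neg (by omega), map_zero]
        rfl
    obtain ⟨⟨h2, h3⟩, h4⟩ := h1 hx
    refine ⟨h2, ?_, fun j hj => ?_⟩
    · rw [SetLike.mem_coe, LinearMap.mem_ker, LinearMap.sub_apply, sub_eq_zero] at h3
      exact h3
    · rw [SetLike.mem_coe, Submodule.mem_iInf] at h4
      have h5 := h4 j
      rw [Submodule.mem_iInf] at h5
      exact h5 hj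
  · rintro ⟨h2, h3, h4⟩
    obtain ⟨s, hs, hs'⟩ := h.sum
    have h1 : cr p = ∑ j ∈ s, cr (q j) := hs'.symm
    rw [← h3, h1, map_sum, LinearMap.sum_apply]
    apply Submodule.sum_mem
    intro j _
    by_cases hj : j ≤ 2 * i - ν
    · exact Submodule.mem_iSup_of_mem j (Submodule.mem_iSup_of_mem hj ⟨x, h2, rfl⟩)
    · rw [h4 j (by omega)]
      exact Submodule.zero_mem _

/-- Combination of a decomposition of `(X, p)` and of `(X, 1 - p)`. -/
lemma exists_combine (hn : ∀ γ : Cor C X, HT H γ → IsNilpotent γ) {P : ℕ → Cor C X}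
    (hP : IsCK H X P) {p : C.A (X.prod X)} (hp : cr p ∈ cor0 C X) (hpp : cr p * cr p = cr p) :
    ∃ r : ℕ → Cor C X, (∀ i, r i * cr p = 0) ∧ ∀ q : ℤ → C.A (X.prod X), IsCKOf H p q →
      IsCK H X (fun n : ℕ => (cr (q n) + r n : Cor C X)) := by
  have hp1 : (1 - cr p) ∈ cor0 C X := (cor0 C X).sub_mem (cor0 C X).one_mem hp
  have hpp1 : (1 - cr p) * (1 - cr p) = 1 - cr p := by
    rw [mul_sub, mul_one, sub_mul, one_mul, hpp, sub_self, sub_zero]
  obtain ⟨r, hr1, hr2, hr3, hr4, hr5⟩ := exists_ck_factor hn hP hp1 hpp1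
  have hrp : ∀ i, r i * (1 - cr p) = r i := by
    intro i
    rw [← hr4, Finset.mul_sum]
    by_cases hi : i ∈ Finset.range (2 * X.dim + 1)
    · rw [Finset.sum_eq_single_of_mem i hi, hr3, if_pos rfl]
      intro j _ hj
      rw [hr3, if_neg (Ne.symm hj)]
    · have h2 : r i = 0 := hr2 i (by rw [Finset.mem_range] at hi; omega)
      rw [h2]
      exact Finset.sum_eq_zero fun j _ => zero_mul _
  have hpr : ∀ i, (1 - cr p) * r i = r i := by
    intro i
    rw [← hr4, Finset.sum_mul]
    by_cases hi : i ∈ Finset.range (2 * X.dim + 1)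
    · rw [Finset.sum_eq_single_of_mem i hi, hr3, if_pos rfl]
      intro j _ hj
      rw [hr3, if_neg hj]
    · have h2 : r i = 0 := hr2 i (by rw [Finset.mem_range] at hi; omega)
      rw [h2]
      exact Finset.sum_eq_zero fun j _ => mul_zero _
  have hrp0 : ∀ i, r i * cr p = 0 := by
    intro i
    have h1 := hrp i
    rw [mul_sub, mul_one, sub_eq_self] at h1
    exact h1
  have hpr0 : ∀ i, cr p * r i = 0 := by
    intro i
    have h1 := hpr i
    rw [sub_mul, one_mul, sub_eq_self] at h1
    exact h1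
  refine ⟨r, hrp0, fun q hq => ?_⟩
  have hqr : ∀ (i : ℤ) (j : ℕ), cr (q i) * r j = 0 := by
    intro i j
    rw [← hq.mul_right i, mul_assoc, hpr0, mul_zero]
  have hrq : ∀ (i : ℤ) (j : ℕ), r j * cr (q i) = 0 := by
    intro i j
    rw [← hq.mul_left i, ← mul_assoc, hrp0, zero_mul]
  apply isCK_of
  · exact fun i => (cor0 C X).add_mem (hq.deg i) (hr1 i)
  · intro i hi
    rw [hr2 i hi, hq.out hn (Or.inr (by exact_mod_cast hi)), add_zero]
  · intro i j
    rw [add_mul, mul_add, mul_add, hqr, hrq, add_zero, zero_add, hq.mul_eq, hr3]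
    by_cases hij : i = j
    · rw [if_pos hij, if_pos hij, if_pos (by exact_mod_cast hij)]
    · rw [if_neg hij, if_neg hij, if_neg (by exact_mod_cast hij), add_zero]
  · rw [Finset.sum_add_distrib, hr4]
    have h1 : ∑ n ∈ Finset.range (2 * X.dim + 1), cr (q n) = cr p := by
      classical
      obtain ⟨s, hs, hs'⟩ := hq.sum
      have h1 : cr p = ∑ j ∈ s, cr (q j) := hs'.symm
      set T : Finset ℤ := (Finset.range (2 * X.dim + 1)).image (fun n : ℕ => (n : ℤ)) with hT
      have h2 : ∑ n ∈ Finset.range (2 * X.dim + 1), cr (q n) = ∑ j ∈ T, cr (q j) := by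
        rw [hT, Finset.sum_image]
        intro a _ b _ hab
        exact Int.ofNat.inj hab
      rw [h2, h1]
      have h3 : ∑ j ∈ T, cr (q j) = ∑ j ∈ T ∪ s, cr (q j) := by
        apply Finset.sum_subset Finset.subset_union_left
        intro j _ hj
        apply hq.out hn
        by_contra hcon
        push Not at hcon
        apply hj
        rw [hT, Finset.mem_image]
        exact ⟨j.toNat, by rw [Finset.mem_range]; omega, by omega⟩
      have h4 : ∑ j ∈ s, cr (q j) = ∑ j ∈ T ∪ s, cr (q j) := by
        apply Finset.sum_subset Finset.subset_union_right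
        intro j _ hj
        exact hs j hj
      rw [h3, h4]
    rw [h1, add_sub_cancel]
  · intro i m a ha
    rw [map_add, LinearMap.add_apply, hq.actH_eq i m ha, hr5 i m a ha, map_sub, map_one,
      LinearMap.sub_apply]
    split_ifs
    · change actH C X H (cr p) a + (a - actH C X H (cr p) a) = a
      rw [add_sub_cancel]
    · exact add_zero 0

/-- A family indexed by the natural numbers gives a decomposition of `(X, p)`. -/
lemma isCKOf_toZ {p : C.A (X.prod X)} {q : ℕ → C.A (X.prod X)}
    (h1 : ∀ i, cr (q i) ∈ cor0 C X) (h2 : ∀ i, 2 * X.dim < i → q i = 0)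
    (h3 : ∀ i j, cr (q i) * cr (q j) = if i = j then cr (q i) else 0)
    (h4 : ∑ i ∈ Finset.range (2 * X.dim + 1), q i = p)
    (h5 : ∀ (i : ℕ) (m : ℤ) (a : H.A X), a ∈ H.gr X m →
        actH C X H (cr (q i)) a = if m = i then actH C X H (cr p) a else 0) :
    IsCKOf H p (toZ q) where
  deg j := by
    unfold toZ
    split_ifs
    · exact h1 _
    · exact Submodule.zero_mem _
  idem j := by
    unfold toZ
    split_ifs
    · have := h3 j.toNat j.toNat
      rw [if_pos rfl] at this
      exact this
    · exact comp_zero C _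
  orth i j hij := by
    unfold toZ
    split_ifs with hi hj
    · have := h3 j.toNat i.toNat
      rw [if_neg (by omega)] at this
      exact this
    · exact comp_zero C _
    · exact zero_comp C _
    · exact comp_zero C _
  sum := by
    refine ⟨(Finset.range (2 * X.dim + 1)).image (fun n : ℕ => (n : ℤ)), fun j hj => ?_, ?_⟩
    · by_cases h0 : 0 ≤ j
      · obtain ⟨n, rfl⟩ := Int.eq_ofNat_of_zero_le h0
        rw [toZ_natCast]
        apply h2
        by_contra hcon
        exact hj (Finset.mem_image.2 ⟨n, by rw [Finset.mem_range]; omega, rfl⟩)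
      · exact toZ_neg q (by omega)
    · have h6 : ∑ j ∈ (Finset.range (2 * X.dim + 1)).image (fun n : ℕ => (n : ℤ)), toZ q j =
          ∑ n ∈ Finset.range (2 * X.dim + 1), toZ q (n : ℤ) := by
        rw [Finset.sum_image]
        intro a _ b _ hab
        exact Int.ofNat.inj hab
      rw [h6, ← h4]
      exact Finset.sum_congr rfl fun n _ => toZ_natCast q n
  act_self j a ha := by
    by_cases h0 : 0 ≤ j
    · obtain ⟨n, rfl⟩ := Int.eq_ofNat_of_zero_le h0
      rw [toZ_natCast]
      have := h5 n n a ha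
      rw [if_pos rfl] at this
      exact this
    · have ha' : a ∈ H.gr X j := ha
      rw [H.gr_neg X j (by omega), Submodule.mem_bot] at ha'
      rw [ha', TheoryData.act_map_zero, TheoryData.act_map_zero]
  act_ne j m a hm ha := by
    by_cases h0 : 0 ≤ j
    · obtain ⟨n, rfl⟩ := Int.eq_ofNat_of_zero_le h0
      rw [toZ_natCast]
      have := h5 n m a ha
      rw [if_neg hm] at this
      exact this
    · rw [toZ_neg q (by omega), actH_zero]

/-- A Chow-Kunneth decomposition of `X` as a decomposition of the motive `(X, 1)`. -/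
lemma _root_.Pool.Agent.TH133.IsCK.isCKOf {π : ℕ → C.A (X.prod X)} (h : IsCK H X π) : IsCKOf H (dg C X) (toZ π) := by
  refine isCKOf_toZ h.deg h.out (fun i j => (isCK_cr h).mul_eq i j) h.sum fun i m a ha => ?_
  rw [(isCK_cr h).actH_eq' i m ha]
  split_ifs
  · have h1 : actH C X H (cr (dg C X)) = 1 := map_one (actH C X H)
    rw [h1]
    rfl
  · rfl

/-- Strict lowering for all varieties implies Murre's conjectures for all motives, in the strong
form. -/
lemma murreConj_of_SL {P : ℕ → Cor C X} (h : IsCK H X P) (hS : SL H P) {p : C.A (X.prod X)}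
    (hp : C.Deg X.dim p) (hpp : C.comp p p = p) :
    (∃ q, IsCKOf H p q) ∧ ∀ q, IsCKOf H p q → MotB C q ∧ MotD H q ∧
      ∀ q', IsCKOf H p q' → ∀ (i : ℕ) (ν : ℤ), motFil C q i ν = motFil C q' i ν := by
  have hn := isNilpotent_of_SL h hS
  have hp' : cr p ∈ cor0 C X := hp
  have hpp' : cr p * cr p = cr p := hpp
  obtain ⟨q0, hq1, hq2, hq3, hq4, hq5⟩ := exists_ck_factor hn h hp' hpp'
  refine ⟨⟨toZ (fun i => uc (q0 i)), isCKOf_toZ hq1 hq2 hq3 hq4 hq5⟩, fun q hq => ?_⟩
  obtain ⟨r, hr, hcomb⟩ := exists_combine hn h hp' hpp'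
  -- the action of the combined decomposition on the image of `p`
  have hact : ∀ (q : ℤ → C.A (X.prod X)) (n : ℕ) (x : C.A X), IsCKOf H p q →
      actC C X (cr (q n) + r n) (actC C X (cr p) x) = actC C X (cr (q n)) x := by
    intro q n x hq
    rw [← actC_mul (H := H), add_mul, hr, add_zero, hq.mul_right]
  have hmem : ∀ (x : C.A X) (i : ℤ), x ∈ C.gr X i → actC C X (cr p) x ∈ C.gr X i :=
    fun x i hx => act_mem0 C hp hx
  obtain ⟨hD, hC', hB, hSL, _, _⟩ := all_of_SL h hS
  have hqB : MotB C q := by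
    intro i j hj x hx
    obtain ⟨n, rfl⟩ := Int.eq_ofNat_of_zero_le (by omega : 0 ≤ j)
    have h1 : actC C X (cr (q n)) x = 0 := by
      rw [← hact q n x hq]
      rw [murreB0_iff] at hB
      exact hB _ (hcomb q hq) i n _ (hmem x i hx) (by omega)
    exact h1
  have hqD : MotD H q := by
    intro i x hx h0
    have h1 : actC C X (cr (q ((2 * i : ℕ) : ℤ))) x = 0 := by
      rw [← hact q (2 * i) x hq]
      have h2 := (hD _ (hcomb q hq) i (actC C X (cr p) x)).2 ⟨hmem x i hx, by
        have : H.cl (C.act p x) = 0 := by rw [cl_act, h0, TheoryData.act_map_zero]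
        exact this⟩
      rw [(hcomb q hq).mem_ckFil] at h2
      exact h2.2 (2 * i) (by omega)
    have e : ((2 * i : ℕ) : ℤ) = 2 * (i : ℤ) := by push_cast; ring
    rw [e] at h1
    exact h1
  refine ⟨hqB, hqD, fun q' hq' i ν => ?_⟩
  have key : ∀ q q', IsCKOf H p q → IsCKOf H p q' → motFil C q i ν ≤ motFil C q' i ν := by
    intro q q' hq hq' x hx
    rw [hq.mem_motFil] at hx
    rw [hq'.mem_motFil]
    obtain ⟨hx1, hx2, hx3⟩ := hx
    refine ⟨hx1, hx2, fun j hj => ?_⟩
    by_cases hj0 : j < 0
    · rw [hq'.out hn (Or.inl hj0), map_zero]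
      rfl
    obtain ⟨m, rfl⟩ := Int.eq_ofNat_of_zero_le (by omega : 0 ≤ j)
    -- the natural number step
    have h1 := hact q' m x hq'
    rw [hx2] at h1
    rw [← h1]
    -- `x` lies in the step of the filtration of `X`
    have hmemq : ∀ q, IsCKOf H p q → (∀ j : ℤ, 2 * i - ν < j → actC C X (cr (q j)) x = 0) →
        ∀ n : ℕ, 2 * (i : ℤ) - ν < n → actC C X (cr (q n) + r n) x = 0 := by
      intro q hq hx3 n hn
      have h2 := hact q n x hq
      rw [hx2] at h2
      rw [h2, hx3 n hn]
    have h3 := hmemq q hq hx3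
    -- compare with `ckFil`
    by_cases hν : ν ≤ 0
    · -- the first half of (B)
      rw [murreB0_iff] at hB
      by_cases hm : 2 * i < m
      · exact hB _ (hcomb q' hq') i m x hx1 hm
      · omega
    · obtain ⟨n, rfl⟩ := Int.eq_ofNat_of_zero_le (by omega : 0 ≤ ν)
      have hc1 : IsCK H X (fun n : ℕ => uc (cr (q n) + r n)) := hcomb q hq
      have hc2 : IsCK H X (fun n : ℕ => uc (cr (q' n) + r n)) := hcomb q' hq'
      have h4 : x ∈ ckFil C (fun n : ℕ => uc (cr (q n) + r n)) i n := by
        rw [hc1.mem_ckFil]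
        exact ⟨hx1, fun j hj => h3 j (by omega)⟩
      rw [hC' _ _ hc1 hc2 i n] at h4
      have h5 := (hc2.mem_ckFil i n x).1 h4
      exact h5.2 m (by omega)
  exact le_antisymm (key q q' hq hq') (key q' q hq' hq)

lemma IsCKOf.sum_mul_sum {p : C.A (X.prod X)} {q : ℤ → C.A (X.prod X)} (h : IsCKOf H p q)
    (T T' : Finset ℤ) : (∑ j ∈ T, cr (q j)) * (∑ j ∈ T', cr (q j)) = ∑ j ∈ T ∩ T', cr (q j) := by
  rw [Finset.sum_mul]
  have h1 : ∀ i ∈ T, cr (q i) * (∑ j ∈ T', cr (q j)) = if i ∈ T' then cr (q i) else 0 := by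
    intro i _
    rw [Finset.mul_sum]
    split_ifs with hi
    · rw [Finset.sum_eq_single_of_mem i hi, h.mul_eq, if_pos rfl]
      intro j _ hj
      rw [h.mul_eq, if_neg (Ne.symm hj)]
    · apply Finset.sum_eq_zero
      intro j hj
      rw [h.mul_eq, if_neg]
      rintro rfl
      exact hi hj
  rw [Finset.sum_congr rfl h1, Finset.sum_ite_mem]

/-- A decomposition of the motive `(X, 1)` gives a Chow-Kunneth decomposition of `X`. -/
lemma exists_isCK_of_isCKOf {q : ℤ → C.A (X.prod X)} (h : IsCKOf H (dg C X) q) :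
    ∃ π : ℕ → C.A (X.prod X), IsCK H X π := by
  classical
  obtain ⟨s, hs, hs'⟩ := h.sum
  set S' : Finset ℤ := s.filter (fun j => j < 0 ∨ 2 * (X.dim : ℤ) < j) with hS'
  let T : ℕ → Finset ℤ := fun n => if n = 0 then insert 0 S' else
    if n ≤ 2 * X.dim then {(n : ℤ)} else ∅
  have hT0 : T 0 = insert 0 S' := if_pos rfl
  have hT1 : ∀ n, n ≠ 0 → n ≤ 2 * X.dim → T n = {(n : ℤ)} := by
    intro n hn hn'
    simp only [T]
    rw [if_neg hn, if_pos hn']
  have hT2 : ∀ n, 2 * X.dim < n → T n = ∅ := by
    intro n hn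
    simp only [T]
    rw [if_neg (by omega), if_neg (by omega)]
  have hmemS : ∀ j ∈ S', j < 0 ∨ 2 * (X.dim : ℤ) < j := fun j hj =>
    (Finset.mem_filter.1 hj).2
  have hdisj : ∀ a b : ℕ, a ≠ b → Disjoint (T a) (T b) := by
    have key : ∀ a b : ℕ, a < b → Disjoint (T a) (T b) := by
      intro a b hab
      rw [Finset.disjoint_left]
      intro j hj hj'
      by_cases hb : b ≤ 2 * X.dim
      · rw [hT1 b (by omega) hb, Finset.mem_singleton] at hj'
        subst hj'
        by_cases ha : a = 0
        · subst ha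
          rw [hT0, Finset.mem_insert] at hj
          rcases hj with hj | hj
          · omega
          · have := hmemS _ hj
            omega
        · rw [hT1 a ha (by omega), Finset.mem_singleton] at hj
          omega
      · rw [hT2 b (by omega)] at hj'
        exact absurd hj' (Finset.notMem_empty _)
    intro a b hab
    rcases lt_or_gt_of_ne hab with h1 | h1
    · exact key a b h1
    · exact (key b a h1).symm
  let P : ℕ → Cor C X := fun n => ∑ j ∈ T n, cr (q j)
  refine ⟨fun n => uc (P n), ?_⟩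
  apply isCK_of (H := H) (P := P)
  · exact fun i => (cor0 C X).sum_mem fun j _ => h.deg j
  · intro i hi
    simp only [P]
    rw [hT2 i hi, Finset.sum_empty]
  · intro i j
    simp only [P]
    rw [h.sum_mul_sum]
    split_ifs with hij
    · subst hij
      rw [Finset.inter_self]
    · rw [Finset.disjoint_iff_inter_eq_empty.1 (hdisj i j hij), Finset.sum_empty]
  · have h1 : ∑ i ∈ Finset.range (2 * X.dim + 1), P i =
        ∑ j ∈ (Finset.range (2 * X.dim + 1)).biUnion T, cr (q j) := by
      rw [Finset.sum_biUnion]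
      intro a _ b _ hab
      exact hdisj a b hab
    have h2 : ∑ j ∈ s, cr (q j) = ∑ j ∈ (Finset.range (2 * X.dim + 1)).biUnion T, cr (q j) := by
      apply Finset.sum_subset
      · intro j hj
        rw [Finset.mem_biUnion]
        by_cases hj0 : j < 0 ∨ 2 * (X.dim : ℤ) < j
        · refine ⟨0, Finset.mem_range.2 (by omega), ?_⟩
          rw [hT0, Finset.mem_insert]
          exact Or.inr (Finset.mem_filter.2 ⟨hj, hj0⟩)
        · push Not at hj0
          obtain ⟨n, rfl⟩ := Int.eq_ofNat_of_zero_le hj0.1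
          refine ⟨n, Finset.mem_range.2 (by omega), ?_⟩
          by_cases hn : n = 0
          · subst hn
            rw [hT0, Finset.mem_insert]
            exact Or.inl rfl
          · rw [hT1 n hn (by omega)]
            exact Finset.mem_singleton_self _
      · intro j _ hj
        exact hs j hj
    rw [h1, ← h2]
    exact hs'
  · intro i m a ha
    simp only [P]
    rw [map_sum, LinearMap.sum_apply]
    have hdg : actH C X H (cr (dg C X)) a = a := by
      have h1 : actH C X H (cr (dg C X)) = 1 := map_one (actH C X H)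
      rw [h1]
      rfl
    have h1 : ∀ j ∈ T i, actH C X H (cr (q j)) a = if j = m then a else 0 := by
      intro j _
      rw [h.actH_eq j m ha, hdg]
      by_cases hjm : j = m
      · rw [if_pos hjm, if_pos hjm.symm]
      · rw [if_neg hjm, if_neg (Ne.symm hjm)]
    rw [Finset.sum_congr rfl h1, Finset.sum_ite_eq']
    by_cases hi : i = 0
    · subst hi
      rw [hT0]
      by_cases hm : m = 0
      · subst hm
        rw [if_pos (Finset.mem_insert_self _ _)]
        rfl
      · have e0 : ¬ m = ((0 : ℕ) : ℤ) := by exact_mod_cast hm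
        rw [if_neg e0]
        split_ifs with hm'
        · rw [Finset.mem_insert] at hm'
          rcases hm' with hm' | hm'
          · exact absurd hm' hm
          · rcases hmemS m hm' with h3 | h3
            · rw [H.gr_neg X m h3, Submodule.mem_bot] at ha
              exact ha
            · rw [gr_top H h3, Submodule.mem_bot] at ha
              exact ha
        · rfl
    · by_cases hi' : i ≤ 2 * X.dim
      · rw [hT1 i hi hi']
        simp only [Finset.mem_singleton]
      · rw [hT2 i (by omega)]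
        rw [if_neg (Finset.notMem_empty _)]
        split_ifs with hm
        · subst hm
          rw [gr_top H (by push_cast at *; omega), Submodule.mem_bot] at ha
          exact ha.symm
        · rfl

/-- Murre's conjectures for the motives of `X` and `X × X` imply the middle case of (D). -/
lemma middleD_of_murreConj (h : ∀ Y : 𝒱.Obj, MurreConj H Y (dg C Y)) (X : 𝒱.Obj) :
    ∃ π : ℕ → C.A (X.prod X), IsCK H X π ∧ MiddleD C H π := by
  obtain ⟨q, hq, _, _⟩ := (h X).exists_BD
  obtain ⟨π, hπ⟩ := exists_isCK_of_isCKOf hq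
  refine ⟨π, hπ, fun γ hγ h0 => ?_⟩
  obtain ⟨Q, hQ, hB, hD⟩ := (h (X.prod X)).exists_BD
  have hs : IsCK H (X.prod X) (selfProd C π π) := hπ.dual.prod hπ
  have h1 : γ ∈ motFil C Q X.dim 1 := by
    rw [hQ.mem_motFil]
    refine ⟨hγ, ?_, fun j hj => ?_⟩
    · exact act_dg C γ
    · by_cases hj' : 2 * (X.dim : ℤ) < j
      · exact hB X.dim j hj' γ hγ
      · have e : j = 2 * (X.dim : ℤ) := by omega
        rw [e]
        exact hD X.dim γ hγ h0
  rw [(h (X.prod X)).indep Q (toZ (selfProd C π π)) hQ hs.isCKOf,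
    (IsCK.isCKOf hs).mem_motFil] at h1
  rw [hs.mem_ckFil]
  refine ⟨hγ, fun j hj => ?_⟩
  have h2 := h1.2.2 j (by omega)
  rw [toZ_natCast] at h2
  exact h2

end Pool.Agent.Q69.Murre
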