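import Pool.Agent.TH133.Defs
import Pool.Agent.TH133.Tens

/-!
# The Chow-Kunneth decomposition of `X × X` induced by decompositions of `X`
-/

open CategoryTheory AlgebraicGeometry

universe u v w

namespace Pool.Agent.Q69.Murre

open Pool.Agent.H914 Pool.Agent.H914.VarClass Pool.Agent.H914.VarClass.Obj Pool.Agent.W492.BB
  Pool.Agent.TH133

variable {k : Type u} [Field k] {𝒱 : VarClass k} (C : TheoryData.{u, v, 0} 𝒱 ℚ) {X : 𝒱.Obj}

/-- The transpose of the family `π`: its `i`-th member is the transpose of `π (2 dim X - i)`. -/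
noncomputable def transCK (π : ℕ → C.A (X.prod X)) : ℕ → C.A (X.prod X) :=
  fun i => if i ≤ 2 * X.dim then tp C (π (2 * X.dim - i)) else 0

/-- The family of self-correspondences of `X × X` with members
`∑_(i + j = n) (π_i)^∨ × π'_j`, where `π^∨` is the transpose of `π`. It is a Chow-Kunneth
decomposition of `X × X` if `π` and `π'` are Chow-Kunneth decompositions of `X`. -/
noncomputable def selfProd (π π' : ℕ → C.A (X.prod X)) :
    ℕ → C.A ((X.prod X).prod (X.prod X)) :=
  fun n => ∑ i ∈ Finset.range (n + 1), tens C (transCK C π i) (π' (n - i))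

/-- The equality of Murre's conjecture (D) for the Chow-Kunneth decomposition `selfProd C π π` of
`X × X` in the middle codimension `dim X`: homologically trivial self-correspondences `γ` of degree
zero lie in `F^1 CH^(dim X)(X × X)`. -/
def MiddleD {K : Type w} [Field K] (H : WeilTheoryData.{u, v, w} C K) {X : 𝒱.Obj}
    (π : ℕ → C.A (X.prod X)) : Prop :=
  ∀ γ : C.A (X.prod X), C.Deg X.dim γ → H.cl γ = 0 → γ ∈ ckFil C (selfProd C π π) X.dim 1

end Pool.Agent.Q69.Murre
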