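import Pool.Agent.TH133.Ext
import Pool.Agent.Q69.Murre.Defs

/-!
# Correspondences and the weights of a Chow-Kunneth decomposition
-/

open CategoryTheory AlgebraicGeometry

universe u v w

namespace Pool.Agent.Q69.Murre

open Pool.Agent.H914 Pool.Agent.H914.VarClass Pool.Agent.H914.VarClass.Obj Pool.Agent.W492.BB
  Pool.Agent.W550.Corr Pool.Agent.TH133

set_option linter.unusedSectionVars false

variable {k : Type u} [Field k] {𝒱 : VarClass k} {C : TheoryData.{u, v, 0} 𝒱 ℚ}
  [hC : IsChowProj C] {K : Type w} [Field K]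
  {H : WeilTheoryData.{u, v, w} C K} [hH : IsWeilProj H] {X Y Z W : 𝒱.Obj}

/-- A self-correspondence as an element of the ring of self-correspondences. -/
def cr {C : TheoryData.{u, v, 0} 𝒱 ℚ} {X : 𝒱.Obj} (γ : C.A (X.prod X)) : Cor C X := γ

/-- An element of the ring of self-correspondences as a class. -/
def uc {C : TheoryData.{u, v, 0} 𝒱 ℚ} {X : 𝒱.Obj} (γ : Cor C X) : C.A (X.prod X) := γ

/-- The self-correspondence `γ` of degree zero is homologically trivial. -/
def HT (H : WeilTheoryData.{u, v, w} C K) (γ : Cor C X) : Prop :=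
  (γ : C.A (X.prod X)) ∈ C.gr (X.prod X) X.dim ∧ H.cl (X := X.prod X) γ = 0

/-- Strict lowering of weights for a given Chow-Kunneth decomposition. -/
def SL (H : WeilTheoryData.{u, v, w} C K) (P : ℕ → Cor C X) : Prop :=
  ∀ γ : Cor C X, HT H γ → ∀ a b : ℕ, a ≤ b → P b * γ * P a = 0

/-- Correspondences from `P` to `P'` do not raise the weights. -/
def NR (P P' : ℕ → Cor C X) : Prop :=
  ∀ γ : Cor C X, γ ∈ cor0 C X → ∀ a b : ℕ, a < b → P' b * γ * P a = 0

include hC hH

lemma actH_eq_zero_of_cl {γ : Cor C X} (h : H.cl (X := X.prod X) γ = 0) : actH C X H γ = 0 := by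
  ext a
  rw [actH_apply, h]
  exact H.act_zero a

lemma cl_eq_zero_of_actH {γ : Cor C X} (h : actH C X H γ = 0) : H.cl (X := X.prod X) γ = 0 := by
  apply hom_zero_of_act H (X := X) (Y := X)
  intro a
  exact LinearMap.congr_fun h a

lemma HT.mem {γ : Cor C X} (h : HT H γ) : γ ∈ cor0 C X := h.1

lemma HT.act {γ : Cor C X} (h : HT H γ) : actH C X H γ = 0 := actH_eq_zero_of_cl h.2

lemma HT.of {γ : Cor C X} (h : γ ∈ cor0 C X) (h' : actH C X H γ = 0) : HT H γ :=
  ⟨h, cl_eq_zero_of_actH h'⟩

lemma HT.mul_left {γ δ : Cor C X} (h : HT H γ) (hδ : δ ∈ cor0 C X) : HT H (δ * γ) :=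
  HT.of ((cor0 C X).mul_mem hδ h.mem) (by rw [map_mul, h.act, mul_zero])

lemma HT.mul_right {γ δ : Cor C X} (h : HT H γ) (hδ : δ ∈ cor0 C X) : HT H (γ * δ) :=
  HT.of ((cor0 C X).mul_mem h.mem hδ) (by rw [map_mul, h.act, zero_mul])

lemma HT.sub {γ δ : Cor C X} (h : HT H γ) (h' : HT H δ) : HT H (γ - δ) :=
  HT.of ((cor0 C X).sub_mem h.mem h'.mem) (by rw [map_sub, h.act, h'.act, sub_zero])

lemma HT.neg {γ : Cor C X} (h : HT H γ) : HT H (-γ) :=
  HT.of ((cor0 C X).neg_mem h.mem) (by rw [map_neg, h.act, neg_zero])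

lemma HT.sum {ι : Type*} {s : Finset ι} {γ : ι → Cor C X} (h : ∀ i ∈ s, HT H (γ i)) :
    HT H (∑ i ∈ s, γ i) :=
  HT.of ((cor0 C X).sum_mem fun i hi => (h i hi).mem)
    (by rw [map_sum]; exact Finset.sum_eq_zero fun i hi => (h i hi).act)

/-- The components of a correspondence between different weights are homologically trivial. -/
lemma ht_comp {P P' : ℕ → Cor C X} (h : IsCK H X P) (h' : IsCK H X P') {γ : Cor C X}
    (hγ : γ ∈ cor0 C X) {a b : ℕ} (hab : a ≠ b) : HT H (P' b * γ * P a) := by
  refine HT.of ((cor0 C X).mul_mem ((cor0 C X).mul_mem (h'.deg b) hγ) (h.deg a)) ?_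
  apply ext_gr H
  intro m x hx
  rw [LinearMap.zero_apply, map_mul, map_mul, Module.End.mul_apply, Module.End.mul_apply,
    h.actH_eq' _ _ hx]
  split_ifs with hm
  · rw [h'.actH_eq' _ _ (actH_mem0 hγ hx), if_neg (by omega)]
  · rw [map_zero, map_zero]

lemma ck_mem {P : ℕ → Cor C X} (h : IsCK H X P) (i : ℕ) : P i ∈ cor0 C X := h.deg i

lemma ck_orth {P : ℕ → Cor C X} (h : IsCK H X P) {i j : ℕ} (hij : i ≠ j) : P i * P j = 0 := by
  rw [h.mul_eq, if_neg hij]

lemma ck_idem {P : ℕ → Cor C X} (h : IsCK H X P) (i : ℕ) : P i * P i = P i := by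
  rw [h.mul_eq, if_pos rfl]

/-- A family with the property `SL` does not raise weights. -/
lemma NR_of_SL {P : ℕ → Cor C X} (h : IsCK H X P) (hS : SL H P) : NR P P := by
  intro γ hγ a b hab
  have h1 := hS _ (ht_comp h h hγ hab.ne) a b hab.le
  have h2 : P b * (P b * γ * P a) * P a = P b * γ * P a := by
    calc P b * (P b * γ * P a) * P a = (P b * P b) * γ * (P a * P a) := by
          simp only [mul_assoc]
      _ = _ := by rw [ck_idem h, ck_idem h]
  rw [← h2, h1]

/-- Compositions of homologically trivial correspondences vanish on the low weights. -/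
lemma compList_mul {P : ℕ → Cor C X} (h : IsCK H X P) (hS : SL H P) (l : List (C.A (X.prod X)))
    (hl : ∀ γ ∈ l, C.Deg X.dim γ ∧ H.cl γ = 0) (a : ℕ) (ha : a < l.length) :
    cr (compList C X l) * P a = 0 := by
  induction l generalizing a with
  | nil => exact absurd ha (Nat.not_lt_zero a)
  | cons γ l ih =>
    have hγ : HT H (cr γ) := hl γ (List.mem_cons_self ..)
    have ih' := ih fun δ hδ => hl δ (List.mem_cons_of_mem _ hδ)
    set x : Cor C X := cr (compList C X l) with hx
    set g : Cor C X := cr γ with hg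
    have e1 : cr (compList C X (γ :: l)) = x * g := rfl
    rw [e1]
    have h1 : x * g * P a = ∑ b ∈ Finset.range (2 * X.dim + 1), x * P b * (P b * g * P a) := by
      have h2 : ∀ b ∈ Finset.range (2 * X.dim + 1), x * P b * (P b * g * P a) =
          x * (P b) * (g * P a) := by
        intro b _
        calc x * P b * (P b * g * P a) = x * (P b * P b) * (g * P a) := by
              simp only [mul_assoc]
          _ = _ := by rw [ck_idem h]
      rw [Finset.sum_congr rfl h2, ← Finset.sum_mul, ← Finset.mul_sum, h.sum_eq, mul_one,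
        mul_assoc]
    rw [h1]
    apply Finset.sum_eq_zero
    intro b _
    by_cases hb : b < l.length
    · rw [ih' b hb, zero_mul]
    · rw [List.length_cons] at ha
      rw [hS g hγ a b (by omega), mul_zero]

/-- Nilpotence of index `2 dim X + 1`. -/
lemma nilpotent_of_SL {P : ℕ → Cor C X} (h : IsCK H X P) (hS : SL H P) :
    NilpotentOfIndex H X (2 * X.dim + 1) := by
  intro l hl hl'
  have h1 : ∀ a ∈ Finset.range (2 * X.dim + 1), cr (compList C X l) * P a = 0 := by
    intro a ha
    rw [Finset.mem_range] at ha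
    exact compList_mul h hS l hl' a (by omega)
  have h2 : cr (compList C X l) = 0 := by
    rw [← mul_one (cr (compList C X l)), ← h.sum_eq, Finset.mul_sum]
    exact Finset.sum_eq_zero h1
  exact h2

lemma compList_replicate (γ : Cor C X) (n : ℕ) :
    cr (compList C X (List.replicate n (uc γ))) = γ ^ n := by
  induction n with
  | zero => rfl
  | succ n ih =>
    rw [pow_succ, ← ih]
    rfl

lemma HT.isNilpotent {n : ℕ} (hn : NilpotentOfIndex H X n) {γ : Cor C X} (h : HT H γ) :
    γ ^ n = 0 := by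
  rw [← compList_replicate (H := H)]
  change compList C X (List.replicate n (uc γ)) = 0
  apply hn
  · exact List.length_replicate
  · intro δ hδ
    rw [List.eq_of_mem_replicate hδ]
    exact h

/-- Two Chow-Kunneth decompositions are conjugate if the homologically trivial correspondences are
nilpotent. -/
lemma exists_conj (hn : ∀ γ : Cor C X, HT H γ → IsNilpotent γ) {P P' : ℕ → Cor C X}
    (h : IsCK H X P) (h' : IsCK H X P') : ∃ s t : Cor C X, s ∈ cor0 C X ∧ t ∈ cor0 C X ∧
      s * t = 1 ∧ t * s = 1 ∧ (∀ a, actH C X H s a = a) ∧ ∀ i, P' i = s * P i * t := by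
  set N := 2 * X.dim + 1 with hN
  let s : Cor C X := ∑ i ∈ Finset.range N, P' i * P i
  have hs : s ∈ cor0 C X := (cor0 C X).sum_mem fun i _ =>
    (cor0 C X).mul_mem (ck_mem h' i) (ck_mem h i)
  have hact : ∀ (m : ℤ) (a : H.A X), a ∈ H.gr X m → actH C X H s a = a := by
    intro m a ha
    simp only [s]
    rw [map_sum, LinearMap.sum_apply]
    have h1 : ∀ i ∈ Finset.range N, actH C X H (P' i * P i) a = actH C X H (P i) a := by
      intro i _
      rw [map_mul, Module.End.mul_apply, h.actH_eq' _ _ ha]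
      split_ifs with hi
      · rw [h'.actH_eq' _ _ ha, if_pos hi]
      · rw [map_zero]
    rw [Finset.sum_congr rfl h1, ← LinearMap.sum_apply, ← map_sum, h.sum_eq, map_one]
    rfl
  have hact1 : actH C X H (1 - s) = 0 := by
    apply ext_gr H
    intro m a ha
    rw [map_sub, map_one, LinearMap.sub_apply, hact m a ha, LinearMap.zero_apply]
    exact sub_self a
  have hht : HT H (1 - s) := HT.of ((cor0 C X).sub_mem (cor0 C X).one_mem hs) hact1
  obtain ⟨n, hn'⟩ := hn _ hht
  -- the inverse
  let t : Cor C X := ∑ i ∈ Finset.range n, (1 - s) ^ i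
  have ht : t ∈ cor0 C X := (cor0 C X).sum_mem fun i _ => (cor0 C X).pow_mem hht.mem i
  have e1 : s * t = 1 := by
    have h1 := mul_neg_geom_sum (1 - s) n
    rw [hn', sub_zero] at h1
    rw [← h1]
    congr 1
    abel
  have e2 : t * s = 1 := by
    have h1 := geom_sum_mul_neg (1 - s) n
    rw [hn', sub_zero] at h1
    rw [← h1]
    congr 1
    abel
  have e3 : ∀ i, P' i * s = s * P i := by
    intro i
    simp only [s]
    rw [Finset.mul_sum, Finset.sum_mul]
    by_cases hi : i ∈ Finset.range N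
    · rw [Finset.sum_eq_single_of_mem i hi, Finset.sum_eq_single_of_mem i hi, ← mul_assoc,
        ck_idem h', mul_assoc, ck_idem h]
      · intro j _ hj
        rw [mul_assoc, ck_orth h hj, mul_zero]
      · intro j _ hj
        rw [← mul_assoc, ck_orth h' (Ne.symm hj), zero_mul]
    · have hi' : 2 * X.dim < i := by
        rw [Finset.mem_range] at hi
        omega
      have h1 : P' i = 0 := h'.out i hi'
      have h2 : P i = 0 := h.out i hi'
      rw [Finset.sum_eq_zero, Finset.sum_eq_zero]
      · intro j _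
        rw [h2, mul_zero]
      · intro j _
        rw [h1, zero_mul]
  refine ⟨s, t, hs, ht, e1, e2, fun a => ?_, fun i => ?_⟩
  · have h1 := LinearMap.congr_fun hact1 a
    rw [map_sub, map_one, LinearMap.sub_apply, LinearMap.zero_apply, sub_eq_zero] at h1
    exact h1.symm
  · rw [← e3, mul_assoc, e1, mul_one]

lemma isNilpotent_of_SL {P : ℕ → Cor C X} (h : IsCK H X P) (hS : SL H P) (γ : Cor C X)
    (hγ : HT H γ) : IsNilpotent γ := ⟨_, hγ.isNilpotent (nilpotent_of_SL h hS)⟩

/-- The property `SL` for one Chow-Kunneth decomposition implies it for all pairs. -/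
lemma SL_pair {P P' P'' : ℕ → Cor C X} (h : IsCK H X P) (hS : SL H P) (h' : IsCK H X P')
    (h'' : IsCK H X P'') {γ : Cor C X} (hγ : HT H γ) {a b : ℕ} (hab : a ≤ b) :
    P'' b * γ * P' a = 0 := by
  obtain ⟨s, t, hs, ht, e1, e2, _, e⟩ := exists_conj (isNilpotent_of_SL h hS) h h'
  obtain ⟨s', t', hs', ht', e1', e2', _, e'⟩ := exists_conj (isNilpotent_of_SL h hS) h h''
  have h1 : P'' b * γ * P' a = s' * (P b * (t' * γ * s) * P a) * t := by
    rw [e, e']
    simp only [mul_assoc]
  rw [h1, hS _ ((hγ.mul_left ht').mul_right hs) a b hab, mul_zero, zero_mul]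

lemma NR_pair {P P' P'' : ℕ → Cor C X} (h : IsCK H X P) (hS : SL H P) (h' : IsCK H X P')
    (h'' : IsCK H X P'') : NR P' P'' := by
  intro γ hγ a b hab
  have h1 := SL_pair h hS h' h'' (ht_comp h' h'' hγ hab.ne) hab.le
  have h2 : P'' b * (P'' b * γ * P' a) * P' a = P'' b * γ * P' a := by
    calc P'' b * (P'' b * γ * P' a) * P' a = (P'' b * P'' b) * γ * (P' a * P' a) := by
          simp only [mul_assoc]
      _ = _ := by rw [ck_idem h', ck_idem h'']
  rw [← h2, h1]

/-- Every class is the image of the algebraic part of weight `2l` under a decomposable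
correspondence. -/
lemma exists_source {P : ℕ → Cor C X} (h : IsCK H X P) {l : ℕ} (hl : l ≤ X.dim) :
    ∃ u ∈ C.gr X l, ∃ v ∈ C.gr X ((X.dim : ℤ) - l), ∀ x ∈ C.gr X (l : ℤ),
      cr (C.ext v x) ∈ cor0 C X ∧
      actC C X (cr (C.ext v x)) (actC C X (P (2 * l)) u) = x := by
  obtain ⟨u0, hu0, v0, hv0, huv⟩ := exists_dual_pair (C := C) (H := H) X hl
  refine ⟨u0, hu0, v0, hv0, fun x hx => ⟨?_, ?_⟩⟩
  · have := ext_mem (C := C) (H := H) hv0 hx
    rwa [sub_add_cancel] at this
  · set π : ℕ → C.A (X.prod X) := fun i => uc (P i) with hπ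
    have hP : IsCK H X π := h
    change C.act (C.ext v0 x) (C.act (π (2 * l)) u0) = x
    rw [act_ext (H := H)]
    have hwm : C.act (π (2 * l)) u0 ∈ C.gr X l := act_mem0 C (hP.deg _) hu0
    have h2 : C.push (snd X X) (C.pull (fst X X) (v0 * C.act (π (2 * l)) u0)) =
        1 := by
      rw [← huv]
      apply deg_eq_of_cl (H := H)
      · have := C.mul_mem hv0 hwm
        rwa [sub_add_cancel] at this
      · have := C.mul_mem hv0 hu0
        rwa [sub_add_cancel] at this
      · rw [map_mul, map_mul, cl_act H]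
        congr 1
        have h3 := H.cl_mem hu0
        exact hP.act_self (2 * l) _ (by exact_mod_cast h3)
    rw [h2, one_mul]

lemma actC_mul (a b : Cor C X) (z : C.A X) :
    actC C X (a * b) z = actC C X a (actC C X b z) := by rw [map_mul]; rfl

/-- Strict lowering implies (D). -/
lemma murreD_of_SL {P : ℕ → Cor C X} (h : IsCK H X P) (hS : SL H P) {l b : ℕ} (hb : 2 * l ≤ b)
    {x : C.A X} (hx : x ∈ C.gr X (l : ℤ)) (h0 : H.cl x = 0) : actC C X (P b) x = 0 := by
  by_cases hl : l ≤ X.dim
  · obtain ⟨u, hu, v, hv, huv⟩ := exists_source h hl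
    obtain ⟨h1, h2⟩ := huv x hx
    have h3 : HT H (cr (C.ext v x)) := by
      refine ⟨h1, ?_⟩
      change H.cl (C.ext v x) = 0
      rw [TheoryData.ext, map_mul, H.cl_pull, H.cl_pull, h0, map_zero, mul_zero]
    have h4 := hS _ h3 (2 * l) b hb
    rw [← h2, ← actC_mul (H := H), ← actC_mul (H := H), h4, map_zero]
    rfl
  · have h5 := hC.gr_top X l x hx (by omega)
    rw [h5, map_zero]

/-- Not raising the weights implies the first half of (B). -/
lemma murreB0_of_NR {P P' : ℕ → Cor C X} (h : IsCK H X P) (hS : NR P P') {l b : ℕ}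
    (hb : 2 * l < b) {x : C.A X} (hx : x ∈ C.gr X (l : ℤ)) : actC C X (P' b) x = 0 := by
  by_cases hl : l ≤ X.dim
  · obtain ⟨u, hu, v, hv, huv⟩ := exists_source h hl
    obtain ⟨h1, h2⟩ := huv x hx
    have h4 := hS _ h1 (2 * l) b hb
    rw [← h2, ← actC_mul (H := H), ← actC_mul (H := H), h4, map_zero]
    rfl
  · have h5 := hC.gr_top X l x hx (by omega)
    rw [h5, map_zero]

/-- Not raising the weights implies (C). -/
lemma murreC_of_NR (hS : ∀ P P' : ℕ → Cor C X, IsCK H X P → IsCK H X P' → NR P P') :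
    MurreC H X := by
  have key : ∀ π π', IsCK H X π → IsCK H X π' → ∀ i n : ℕ, ckFil C π i n ≤ ckFil C π' i n := by
    intro π π' h h' i n x hx
    rw [h.mem_ckFil] at hx
    rw [h'.mem_ckFil]
    refine ⟨hx.1, fun m hm => ?_⟩
    have h1 : x = ∑ j ∈ Finset.range (2 * X.dim + 1), C.act (π j) x := by
      rw [← act_sum, h.sum, act_dg]
    rw [h1, act_map_sum]
    apply Finset.sum_eq_zero
    intro j _
    by_cases hj : 2 * i + 1 - n ≤ j
    · rw [hx.2 j hj, TheoryData.act_map_zero]
    · have h2 := hS π π' h h' 1 (cor0 C X).one_mem j m (by omega)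
      have h3 : cr (π' m) * 1 * cr (π j) = 0 := h2
      rw [mul_one] at h3
      replace h3 : C.comp (π j) (π' m) = 0 := h3
      rw [← C.act_comp, h3, TheoryData.act_zero]
  intro π π' h h' i n
  exact le_antisymm (key π π' h h' i n) (key π' π h' h i n)

/-- The middle-dimensional case of (D) for the product decomposition of `X × X` is strict
lowering. -/
lemma SL_of_middle {π : ℕ → C.A (X.prod X)} (h : IsCK H X π)
    (hD : ∀ γ : C.A (X.prod X), C.Deg X.dim γ → H.cl γ = 0 →
      γ ∈ ckFil C (prodCK C (dualCK C π) π) X.dim 1) : SL H (fun i => cr (π i)) := by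
  intro γ hγ a b hab
  have h1 : uc γ ∈ ckFil C (prodCK C (dualCK C π) π) X.dim 1 := hD γ hγ.1 hγ.2
  rw [(h.dual.prod h).mem_ckFil] at h1
  by_cases ha : a ≤ 2 * X.dim
  · have h2 : C.comp (C.comp (π a) (uc γ)) (π b) = 0 :=
      comp_zero_of_prod (H := H) h h ha (h1.2 (2 * X.dim - a + b) (by omega))
    rw [mul_assoc]
    exact h2
  · have h2 : cr (π a) = 0 := h.out a (by omega)
    simp only [h2, mul_zero]

/-- The middle-dimensional case of the first half of (B) for product decompositions of `X × X`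
means that weights are not raised. -/
lemma NR_of_middle {π π' : ℕ → C.A (X.prod X)} (h : IsCK H X π) (h' : IsCK H X π')
    (hB : ckFil C (prodCK C (dualCK C π) π') X.dim 0 = C.gr (X.prod X) X.dim) :
    NR (fun i => cr (π i)) (fun i => cr (π' i)) := by
  intro γ hγ a b hab
  have h1 : uc γ ∈ C.gr (X.prod X) X.dim := hγ
  rw [← hB, (h.dual.prod h').mem_ckFil] at h1
  by_cases ha : a ≤ 2 * X.dim
  · have h2 : C.comp (C.comp (π a) (uc γ)) (π' b) = 0 :=
      comp_zero_of_prod (H := H) h h' ha (h1.2 (2 * X.dim - a + b) (by omega))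
    rw [mul_assoc]
    exact h2
  · have h2 : cr (π a) = 0 := h.out a (by omega)
    simp only [h2, mul_zero]

end Pool.Agent.Q69.Murre
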