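import Pool.Agent.Q69.Murre.Low

/-!
# The conjectures of Murre in the middle dimension of self-products
-/

open CategoryTheory AlgebraicGeometry

universe u v w

namespace Pool.Agent.Q69.Murre

open Pool.Agent.H914 Pool.Agent.H914.VarClass Pool.Agent.H914.VarClass.Obj Pool.Agent.W492.BB
  Pool.Agent.W550.Corr Pool.Agent.TH133

set_option linter.unusedSectionVars false

variable {k : Type u} [Field k] {𝒱 : VarClass k} {C : TheoryData.{u, v, 0} 𝒱 ℚ}
  [hC : IsChowProj C] {K : Type w} [Field K]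
  {H : WeilTheoryData.{u, v, w} C K} [hH : IsWeilProj H] {X Y Z W : 𝒱.Obj}

include hC hH

lemma isCK_cr {π : ℕ → C.A (X.prod X)} (h : IsCK H X π) : IsCK H X (fun i => cr (π i)) := h

lemma strictlyLowers_of_SL {P : ℕ → Cor C X} (h : IsCK H X P) (hS : SL H P) :
    StrictlyLowers H X := by
  intro π hπ γ hγ h0 a b hab
  have h1 := SL_pair h hS (isCK_cr hπ) (isCK_cr hπ) (γ := cr γ) ⟨hγ, h0⟩ hab
  rw [mul_assoc] at h1
  exact h1

lemma SL_of_strictlyLowers (hX : StrictlyLowers H X) {π : ℕ → C.A (X.prod X)} (h : IsCK H X π) :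
    SL H (fun i => cr (π i)) := by
  intro γ hγ a b hab
  have h1 := hX π h (uc γ) hγ.1 hγ.2 a b hab
  rw [mul_assoc]
  exact h1

lemma murreD_of_SL' {P : ℕ → Cor C X} (h : IsCK H X P) (hS : SL H P) : MurreD H X := by
  intro π hπ i x
  rw [hπ.mem_ckFil]
  have hS' : SL H (fun i => cr (π i)) :=
    SL_of_strictlyLowers (strictlyLowers_of_SL h hS) hπ
  constructor
  · rintro ⟨hx, hx'⟩
    refine ⟨hx, ?_⟩
    have h1 := hπ.act_self (2 * i) (H.cl x) (by exact_mod_cast H.cl_mem hx)
    rw [← cl_act H, hx' (2 * i) (by omega), map_zero] at h1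
    exact h1.symm
  · rintro ⟨hx, h0⟩
    exact ⟨hx, fun j hj => murreD_of_SL (isCK_cr hπ) hS' (by omega) hx h0⟩

lemma murreB0_of_NR' (hS : ∀ π : ℕ → C.A (X.prod X), IsCK H X π → NR (fun i => cr (π i))
    (fun i => cr (π i))) : MurreB0 H X := by
  rw [murreB0_iff]
  intro π hπ i j x hx hj
  exact murreB0_of_NR (isCK_cr hπ) (hS π hπ) hj hx

/-- Everything follows from strict lowering for a single decomposition. -/
lemma all_of_SL {P : ℕ → Cor C X} (h : IsCK H X P) (hS : SL H P) :
    MurreD H X ∧ MurreC H X ∧ MurreB0 H X ∧ StrictlyLowers H X ∧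
      NilpotentOfIndex H X (2 * X.dim + 1) ∧ UniqueUpToConjugation H X := by
  refine ⟨murreD_of_SL' h hS, murreC_of_NR fun P' P'' h' h'' => NR_pair h hS h' h'',
    murreB0_of_NR' fun π hπ => NR_pair h hS (isCK_cr hπ) (isCK_cr hπ),
    strictlyLowers_of_SL h hS, nilpotent_of_SL h hS, ?_⟩
  intro π π' hπ hπ'
  obtain ⟨s, t, hs, ht, e1, e2, e3, e4⟩ := exists_conj (isNilpotent_of_SL h hS) (isCK_cr hπ)
    (isCK_cr hπ')
  refine ⟨uc s, uc t, hs, ht, e2, e1, e3, fun i => ?_⟩
  have h1 := e4 i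
  rw [mul_assoc] at h1
  exact h1

/-- (D) in the middle dimension of `X × X`. -/
lemma SL_of_murreD (hX : MurreD H (X.prod X)) {π : ℕ → C.A (X.prod X)} (h : IsCK H X π) :
    SL H (fun i => cr (π i)) := by
  apply SL_of_middle h
  intro γ hγ h0
  exact (hX _ (h.dual.prod h) X.dim γ).2 ⟨hγ, h0⟩

/-- Not raising weights, from the first half of (B) for `X × X`. -/
lemma NR_of_murreB0 (hX : MurreB0 H (X.prod X)) {π π' : ℕ → C.A (X.prod X)} (h : IsCK H X π)
    (h' : IsCK H X π') : NR (fun i => cr (π i)) (fun i => cr (π' i)) :=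
  NR_of_middle h h' (hX _ (h.dual.prod h') X.dim)

/-- Independence of `F^0` in one codimension implies that `F^0` is everything in that
codimension. -/
lemma murreB0_of_C0_at {l : ℕ} (hX : ∀ π π', IsCK H X π → IsCK H X π' →
    ckFil C π l 0 = ckFil C π' l 0) {π : ℕ → C.A (X.prod X)} (hπ : IsCK H X π) :
    ckFil C π l 0 = C.gr X l := by
  have key : ∀ (j : ℕ) (x : C.A X), x ∈ C.gr X l → 2 * l < j → C.act (π j) x = 0 := by
    intro j x hx hj
    by_cases hl : l ≤ X.dim
    swap
    · have h5 := hC.gr_top X l x hx (by omega)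
      rw [h5, TheoryData.act_map_zero]
    let P : ℕ → Cor C X := fun i => cr (π i)
    have hP : IsCK H X P := hπ
    obtain ⟨u0, hu0, v0, hv0, huv⟩ := exists_source hP hl
    set α := C.act (π j) x with hα
    have hαm : α ∈ C.gr X l := act_mem0 C (hπ.deg j) hx
    have hαj : C.act (π j) α = α := by rw [hα, ← C.act_comp, hπ.idem]
    obtain ⟨hE, hEw⟩ := huv α hαm
    set E : Cor C X := cr (C.ext v0 α) with hEdef
    set w := actC C X (P (2 * l)) u0 with hw
    have hwm : w ∈ C.gr X l := act_mem0 C (hπ.deg _) hu0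
    let n : Cor C X := P j * E * P (2 * l)
    have hn : n ∈ cor0 C X := (cor0 C X).mul_mem ((cor0 C X).mul_mem (hπ.deg _) hE) (hπ.deg _)
    have hnn : n * n = 0 := by
      have : n * n = P j * E * (P (2 * l) * P j) * E * P (2 * l) := by
        simp only [n, mul_assoc]
      rw [this, ck_orth hP (by omega), mul_zero, zero_mul, zero_mul]
    have hnact : ∀ a : H.A X, actH C X H n a = 0 := by
      intro a
      rw [(ht_comp hP hP hE (by omega : 2 * l ≠ j)).act, LinearMap.zero_apply]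
    have huv' : (1 + n) * (1 - n) = 1 := by
      rw [mul_sub, mul_one, add_mul, one_mul, hnn]; abel
    have hvu' : (1 - n) * (1 + n) = 1 := by
      rw [mul_add, mul_one, sub_mul, one_mul, hnn]; abel
    have hconj := hP.conj (u := 1 + n) (v := 1 - n) ((cor0 C X).add_mem (cor0 C X).one_mem hn)
      ((cor0 C X).sub_mem (cor0 C X).one_mem hn) huv' hvu'
      (fun a => by rw [map_add, map_one, LinearMap.add_apply, hnact, add_zero]; rfl)
    have hF := hX _ _ hconj hπ
    have hPw : ∀ i, actC C X (P i) w = if i = 2 * l then w else 0 := by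
      intro i
      split_ifs with hi
      · rw [hw, ← actC_mul (H := H), hi, ck_idem hP]
      · rw [hw, ← actC_mul (H := H), ck_orth hP hi, map_zero]
        rfl
    have hnw : actC C X n w = α := by
      simp only [n]
      rw [actC_mul (H := H), actC_mul (H := H), hPw, if_pos rfl, hEw]
      exact hαj
    have hy : w + α ∈ ckFil C (fun i => ((1 + n) * P i * (1 - n) : Cor C X)) l 0 := by
      rw [hconj.mem_ckFil]
      refine ⟨Submodule.add_mem _ hwm hαm, fun i hi => ?_⟩
      have h1 : w + α = actC C X (1 + n) w := by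
        rw [map_add, map_one, LinearMap.add_apply, hnw]
        rfl
      have h2 : actC C X ((1 + n) * P i * (1 - n)) (w + α) = 0 := by
        rw [h1, ← actC_mul (H := H)]
        have h3 : (1 + n) * P i * (1 - n) * (1 + n) = (1 + n) * P i := by
          rw [mul_assoc, hvu', mul_one]
        rw [h3, actC_mul (H := H), hPw, if_neg (by omega), map_zero]
      exact h2
    rw [hF, hπ.mem_ckFil] at hy
    have h1 := hy.2 j (by omega)
    rw [act_map_add, hαj] at h1
    have h2 : C.act (π j) w = 0 := by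
      have := hPw j
      rw [if_neg (by omega)] at this
      exact this
    rw [h2, zero_add] at h1
    exact h1
  ext x
  rw [hπ.mem_ckFil]
  exact ⟨fun h' => h'.1, fun hx => ⟨hx, fun j hj => key j x hx (by omega)⟩⟩

/-- The first half of (B) for all varieties makes the filtrations functorial. -/
lemma functorial_of_B0 (hB : ∀ Y : 𝒱.Obj, MurreB0 H Y) {π : ℕ → C.A (X.prod X)}
    {ρ : ℕ → C.A (Z.prod Z)} (h : IsCK H X π) (h' : IsCK H Z ρ) {i i' n : ℕ}
    {Γ : C.A (X.prod Z)} (hΓ : C.Deg (X.dim + i' - i) Γ) {x : C.A X} (hx : x ∈ ckFil C π i n) :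
    C.act Γ x ∈ ckFil C ρ i' n := by
  rw [h.mem_ckFil] at hx
  rw [h'.mem_ckFil]
  constructor
  · have h1 : Γ ∈ C.gr (X.prod Z) (X.dim + (i' - i : ℤ)) := by
      have e : (X.dim : ℤ) + (i' - i : ℤ) = X.dim + i' - i := by ring
      rw [e]; exact hΓ
    have h2 := act_mem' C h1 hx.1
    have e : (i : ℤ) + (i' - i) = i' := by ring
    rwa [e] at h2
  · intro m hm
    by_cases h0 : (0 : ℤ) ≤ X.dim + i' - i
    · obtain ⟨c, hc⟩ := Int.eq_ofNat_of_zero_le h0
      have hΓ' : Γ ∈ C.gr (X.prod Z) c := hc ▸ hΓ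
      have h1 : x = ∑ j ∈ Finset.range (2 * X.dim + 1), C.act (π j) x := by
        rw [← act_sum, h.sum, act_dg]
      rw [h1, act_map_sum, act_map_sum]
      apply Finset.sum_eq_zero
      intro j _
      by_cases hj : 2 * i + 1 - n ≤ j
      · rw [hx.2 j hj, TheoryData.act_map_zero, TheoryData.act_map_zero]
      · have h2 := comp_zero_of_B0 (hB (X.prod Z)) h h' (i := c) (j := j) (b := m) hΓ' (by omega)
        rw [← C.act_comp, ← C.act_comp, ← comp_assoc, h2, TheoryData.act_zero]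
    · have h1 : Γ = 0 := by
        have h2 : Γ ∈ C.gr (X.prod Z) (X.dim + i' - i) := hΓ
        rw [C.gr_neg _ _ (by omega)] at h2
        exact (Submodule.mem_bot ℚ).1 h2
      rw [h1, C.act_zero, TheoryData.act_map_zero]

omit hC hH in
/-- Murre's conjecture (D) in the middle codimension of `X × X` for one decomposition implies the
conjectures (D), (C), the first half of (B), nilpotence and uniqueness up to conjugation for `X`; so
(D) for all varieties is equivalent to its middle-dimensional case for self-products, and to (C)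
together with the faithfulness of `End(h^a(X))` on cohomology. -/
theorem middle_D (C : TheoryData.{u, v, 0} 𝒱 ℚ)
    [IsChowProj C] {K : Type w} [Field K] (H : WeilTheoryData.{u, v, w} C K) [IsWeilProj H] :
    (∀ X : 𝒱.Obj, (∃ π : ℕ → C.A (X.prod X), IsCK H X π ∧ MiddleD C H π) →
      MurreD H X ∧ MurreC H X ∧ MurreB0 H X ∧ StrictlyLowers H X ∧
        NilpotentOfIndex H X (2 * X.dim + 1) ∧ UniqueUpToConjugation H X) ∧
    [∀ X : 𝒱.Obj, MurreD H X,
      ∀ X : 𝒱.Obj, (∃ π : ℕ → C.A (X.prod X), IsCK H X π) →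
        ∃ π : ℕ → C.A (X.prod X), IsCK H X π ∧ MiddleD C H π,
      ∀ X : 𝒱.Obj, MurreC H X ∧ ∀ π : ℕ → C.A (X.prod X), IsCK H X π →
        ∀ γ : C.A (X.prod X), C.Deg X.dim γ → H.cl γ = 0 → ∀ a : ℕ,
          C.comp (C.comp (π a) γ) (π a) = 0].TFAE := by
  have hloc : ∀ X : 𝒱.Obj, (∃ π : ℕ → C.A (X.prod X), IsCK H X π ∧ MiddleD C H π) →
      MurreD H X ∧ MurreC H X ∧ MurreB0 H X ∧ StrictlyLowers H X ∧
        NilpotentOfIndex H X (2 * X.dim + 1) ∧ UniqueUpToConjugation H X := by
    rintro X ⟨π, hπ, hD⟩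
    exact all_of_SL (isCK_cr hπ) (SL_of_middle hπ hD)
  refine ⟨hloc, ?_⟩
  tfae_have 1 → 2 := by
    rintro h X ⟨π, hπ⟩
    exact ⟨π, hπ, fun γ hγ h0 => (h (X.prod X) _ (hπ.dual.prod hπ) X.dim γ).2 ⟨hγ, h0⟩⟩
  tfae_have 2 → 3 := by
    intro h X
    refine ⟨fun π π' hπ hπ' => (hloc X (h X ⟨π, hπ⟩)).2.1 π π' hπ hπ', ?_⟩
    intro π hπ γ hγ h0 a
    exact (hloc X (h X ⟨π, hπ⟩)).2.2.2.1 π hπ γ hγ h0 a a le_rfl
  tfae_have 3 → 1 := by
    intro h X π hπ
    have hB : MurreB0 H (X.prod X) := murreB0_of_C0 _ fun π π' hπ hπ' i =>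
      (h (X.prod X)).1 π π' hπ hπ' i 0
    have hN := NR_of_murreB0 hB hπ hπ
    have hS : SL H (fun i => cr (π i)) := by
      intro γ hγ a b hab
      rcases hab.lt_or_eq with hlt | rfl
      · exact hN γ hγ.mem a b hlt
      · have h1 := (h X).2 π hπ (uc γ) hγ.1 hγ.2 a
        rw [mul_assoc]
        exact h1
    exact murreD_of_SL' (isCK_cr hπ) hS π hπ
  tfae_finish

end Pool.Agent.Q69.Murre
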