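import Pool.Agent.TH133.Defs

/-!
# The decomposition theorem of Bloch and Srinivas, as a property of Chow groups
-/

open CategoryTheory AlgebraicGeometry

universe u v w

namespace Pool.Agent.Q69.Murre

open Pool.Agent.H914 Pool.Agent.H914.VarClass Pool.Agent.H914.VarClass.Obj Pool.Agent.W492.BB
  Pool.Agent.TH133

variable {k : Type u} [Field k] {𝒱 : VarClass k}

/-- The decomposition theorem of Bloch and Srinivas for the Chow groups of smooth projective
varieties over an uncountable algebraically closed field of characteristic zero such as the complex
numbers: if a correspondence `Γ` from `X` to `Y` acts as zero on the zero-cycles of `X`, then it is a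
linear combination of push-forwards of correspondences from varieties `T` of dimension `dim X - 1`
(resolutions of the components of a divisor of `X`) along morphisms `ι × 1 : T × Y → X × Y`. -/
def BlochSrinivas (C : TheoryData.{u, v, 0} 𝒱 ℚ) : Prop :=
  ∀ (X Y : 𝒱.Obj) (e : ℤ) (Γ : C.A (X.prod Y)), C.Deg e Γ →
    (∀ x : C.A X, C.Deg X.dim x → C.act Γ x = 0) →
    Γ ∈ Submodule.span ℚ {c | ∃ (T : 𝒱.Obj) (ι : T ⟶ X) (w : C.A (T.prod Y)),
      T.dim + 1 = X.dim ∧ C.Deg (e - 1) w ∧ c = C.down (prodMap ι (𝟙 Y)) w}

/-- The formal properties of the Chow groups with rational coefficients of smooth projective complex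
varieties: those of `IsChowProj`, and the decomposition theorem of Bloch and Srinivas. -/
class IsChowComplex (C : TheoryData.{u, v, 0} 𝒱 ℚ) : Prop extends IsChowProj C where
  blochSrinivas : BlochSrinivas C

end Pool.Agent.Q69.Murre
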