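import Pool.Agent.Q69.Murre.Main
import Pool.Agent.Q69.Murre.BSDef
import Pool.Agent.Q69.BB.Sub

/-!
# The second half of (B) and zero-cycles
-/

open CategoryTheory AlgebraicGeometry

universe u v w

namespace Pool.Agent.Q69.Murre

open Pool.Agent.H914 Pool.Agent.H914.VarClass Pool.Agent.H914.VarClass.Obj Pool.Agent.W492.BB
  Pool.Agent.W550.Corr Pool.Agent.TH133

set_option linter.unusedSectionVars false

variable {k : Type u} [Field k] {𝒱 : VarClass k} {C : TheoryData.{u, v, 0} 𝒱 ℚ}
  [hC : IsChowProj C] {K : Type w} [Field K]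
  {H : WeilTheoryData.{u, v, w} C K} [hH : IsWeilProj H] {X Y Z W T : 𝒱.Obj}

include hC hH

omit hH in
lemma act_push_prodMap (ι : T ⟶ X) (w : C.A (T.prod Y)) (x : C.A X) :
    C.act (C.push (prodMap ι (𝟙 Y)) w) x = C.act w (C.pull ι x) := by
  rw [TheoryData.act_apply, TheoryData.act_apply, ← C.proj_right, ← C.push_comp, ← C.pull_comp,
    prodMap_fst, prodMap_snd, Category.comp_id, C.pull_comp]

lemma murreB1_iff (X : 𝒱.Obj) : MurreB1 H X ↔ ∀ π, IsCK H X π → ∀ (i j : ℕ) (x : C.A X),
    x ∈ C.gr X i → j < i → C.act (π j) x = 0 := by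
  constructor
  · intro h π hπ i j x hx hj
    have h2 : C.act (π j) x ∈ ckFil C π i (i + 1) := by
      rw [hπ.mem_ckFil]
      refine ⟨act_mem0 C (hπ.deg j) hx, fun m hm => ?_⟩
      rw [← C.act_comp, hπ.orth j m (by omega), C.act_zero]
    rw [h π hπ i] at h2
    exact (Submodule.mem_bot ℚ).1 h2
  · intro h π hπ i
    rw [eq_bot_iff]
    intro x hx
    rw [hπ.mem_ckFil] at hx
    rw [Submodule.mem_bot]
    have h1 : x = ∑ j ∈ Finset.range (2 * X.dim + 1), C.act (π j) x := by
      rw [← act_sum, hπ.sum, act_dg]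
    rw [h1]
    apply Finset.sum_eq_zero
    intro j _
    by_cases hj : j < i
    · exact h π hπ i j x hx.1 hj
    · exact hx.2 j (by omega)

lemma murreC_of_B0_all (hB : ∀ Y : 𝒱.Obj, MurreB0 H Y) (X : 𝒱.Obj) : MurreC H X :=
  murreC_of_B0 X (hB (X.prod X))

/-- The second half of (B) follows from zero-cycles, given the first half. -/
theorem murreB1_of_zero (hBS : BlochSrinivas C) (hB : ∀ Y : 𝒱.Obj, MurreB0 H Y)
    (hZ : ∀ X : 𝒱.Obj, ∃ π : ℕ → C.A (X.prod X), IsCK H X π ∧
      ∀ j < X.dim, ∀ x : C.A X, C.Deg X.dim x → C.act (π j) x = 0) (X : 𝒱.Obj) :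
    MurreB1 H X := by
  have main : ∀ (d : ℕ) (X : 𝒱.Obj), X.dim = d → MurreB1 H X := by
    intro d
    induction d using Nat.strong_induction_on with
    | _ d ih =>
      intro X hX
      obtain ⟨π, hπ, h0⟩ := hZ X
      -- it suffices to treat the decomposition `π`
      have key : ∀ (i j : ℕ) (x : C.A X), x ∈ C.gr X i → j < i → C.act (π j) x = 0 := by
        intro i j x hx hji
        rcases lt_trichotomy i X.dim with hi | hi | hi
        · -- the main case
          have hspan := hBS X X X.dim (π j) (hπ.deg j) (h0 j (by omega))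
          set α := C.act (π j) x with hα
          have hαi : C.act (π j) α = α := by rw [hα, ← C.act_comp, hπ.idem]
          have hαm : α ∈ C.gr X i := act_mem0 C (hπ.deg j) hx
          have hzero : ∀ (T : 𝒱.Obj) (ι : T ⟶ X), T.dim + 1 = X.dim → C.pull ι α = 0 := by
            intro T ι hT
            obtain ⟨ρ, hρ, _⟩ := hZ T
            have hT1 := (murreB1_iff T).1 (ih T.dim (by omega) T rfl) ρ hρ
            have h1 : C.pull ι α = ∑ m ∈ Finset.range (2 * T.dim + 1), C.act (ρ m) (C.pull ι α) := by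
              rw [← act_sum, hρ.sum, act_dg]
            rw [h1]
            apply Finset.sum_eq_zero
            intro m _
            by_cases hm : m < i
            · exact hT1 i m _ (C.pull_mem ι hαm) hm
            · have h2 : C.comp (C.comp (π j) (C.cograph ι)) (ρ m) = 0 := by
                refine comp_zero_of_B0 (hB (X.prod T)) hπ hρ (i := X.dim) ?_ (by omega)
                exact Pool.Agent.Y148.BB.cograph_mem ι
              rw [hα, ← C.act_cograph ι, ← C.act_comp, ← C.act_comp, ← comp_assoc, h2, C.act_zero]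
          rw [← hαi]
          have h3 : Submodule.span ℚ {c | ∃ (T : 𝒱.Obj) (ι : T ⟶ X) (w : C.A (T.prod X)),
              T.dim + 1 = X.dim ∧ C.Deg ((X.dim : ℤ) - 1) w ∧ c = C.down (prodMap ι (𝟙 X)) w} ≤
              LinearMap.ker ((actB C (X := X) (Y := X)).flip α) := by
            rw [Submodule.span_le]
            rintro _ ⟨T, ι, w, hT, _, rfl⟩
            rw [SetLike.mem_coe, LinearMap.mem_ker, LinearMap.flip_apply, actB_apply]
            change C.act (C.push (prodMap ι (𝟙 X)) w) α = 0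
            rw [act_push_prodMap, hzero T ι hT, C.act_map_zero]
          have h4 := h3 hspan
          rw [LinearMap.mem_ker, LinearMap.flip_apply, actB_apply] at h4
          exact h4
        · subst hi
          exact h0 j hji x hx
        · have h5 := hC.gr_top X i x hx (by omega)
          rw [h5, TheoryData.act_map_zero]
      rw [murreB1_iff]
      intro π' hπ' i j x hx hj
      have hCX := murreC_of_B0_all hB X
      have h2 : C.act (π' j) x ∈ ckFil C π' i (i + 1) := by
        rw [hπ'.mem_ckFil]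
        refine ⟨act_mem0 C (hπ'.deg j) hx, fun m hm => ?_⟩
        rw [← C.act_comp, hπ'.orth j m (by omega), C.act_zero]
      rw [hCX π' π hπ' hπ, hπ.mem_ckFil] at h2
      have h1 : C.act (π' j) x = ∑ m ∈ Finset.range (2 * X.dim + 1),
          C.act (π m) (C.act (π' j) x) := by
        rw [← act_sum, hπ.sum, act_dg]
      rw [h1]
      apply Finset.sum_eq_zero
      intro m _
      by_cases hm : m < i
      · exact key i m _ h2.1 hm
      · exact h2.2 m (by omega)
  exact main X.dim X rfl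

/-- The vanishing of one step `F^(d+1)` on zero-cycles in terms of the projectors. -/
lemma zero_of_ckFil {π : ℕ → C.A (X.prod X)} (hπ : IsCK H X π) {i : ℕ}
    (h : ckFil C π i (i + 1) = ⊥) (j : ℕ) (hj : j < i) (x : C.A X) (hx : C.Deg i x) :
    C.act (π j) x = 0 := by
  have h2 : C.act (π j) x ∈ ckFil C π i (i + 1) := by
    rw [hπ.mem_ckFil]
    refine ⟨act_mem0 C (hπ.deg j) hx, fun m hm => ?_⟩
    rw [← C.act_comp, hπ.orth j m (by omega), C.act_zero]
  rw [h] at h2
  exact (Submodule.mem_bot ℚ).1 h2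

omit hC hH in
/-- Murre's conjectures (A) and (B) reduce to two special cases of (B). -/
theorem murreB_iff (C : TheoryData.{u, v, 0} 𝒱 ℚ) [hC : IsChowComplex C] {K : Type w} [Field K]
    (H : WeilTheoryData.{u, v, w} C K) [IsWeilProj H] :
    ((∀ X : 𝒱.Obj, ∃ π : ℕ → C.A (X.prod X), IsCK H X π) ∧
      ∀ X : 𝒱.Obj, MurreB0 H X ∧ MurreB1 H X) ↔
    ((∀ (X : 𝒱.Obj) (π π' : ℕ → C.A (X.prod X)), IsCK H X π → IsCK H X π' →
        ckFil C (selfProd C π π') X.dim 0 = C.gr (X.prod X) X.dim) ∧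
      ∀ X : 𝒱.Obj, ∃ π : ℕ → C.A (X.prod X), IsCK H X π ∧
        ckFil C π X.dim (X.dim + 1) = ⊥) := by
  constructor
  · rintro ⟨hA, hB⟩
    refine ⟨fun X π π' hπ hπ' => (hB (X.prod X)).1 _ (hπ.dual.prod hπ') X.dim, fun X => ?_⟩
    obtain ⟨π, hπ⟩ := hA X
    exact ⟨π, hπ, (hB X).2 π hπ X.dim⟩
  · rintro ⟨h1, h2⟩
    have hB : ∀ Y : 𝒱.Obj, MurreB0 H Y := fun Y =>
      murreB0_of_NR' fun π hπ => NR_of_middle hπ hπ (h1 Y π π hπ hπ)
    refine ⟨fun X => ?_, fun X => ⟨hB X, ?_⟩⟩
    · obtain ⟨π, hπ, _⟩ := h2 X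
      exact ⟨π, hπ⟩
    · refine murreB1_of_zero hC.blochSrinivas hB (fun X => ?_) X
      obtain ⟨π, hπ, h3⟩ := h2 X
      exact ⟨π, hπ, fun j hj x hx => zero_of_ckFil hπ h3 j hj x hx⟩

end Pool.Agent.Q69.Murre
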