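import Pool.Agent.TH133.Defs

/-!
# Bloch-Beilinson filtrations on the Chow groups of all varieties
-/

open CategoryTheory AlgebraicGeometry

universe u v w

namespace Pool.Agent.Q69.Murre

open Pool.Agent.H914 Pool.Agent.H914.VarClass Pool.Agent.H914.VarClass.Obj Pool.Agent.W492.BB
  Pool.Agent.TH133

variable {k : Type u} [Field k] {𝒱 : VarClass k} {C : TheoryData.{u, v, 0} 𝒱 ℚ} {K : Type w}
  [Field K] (H : WeilTheoryData.{u, v, w} C K)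

/-- The formal properties of the kernels `N X j ⊆ CH^j(X)` of the Abel-Jacobi maps
`CH^j(X)_hom → J^(2j-1)(X) ⊗ ℚ`:
* they consist of homologically trivial classes and are stable under all correspondences;
* a correspondence acting as zero on `H^(2j-1)(X)` maps `CH^j(X)_hom` to the kernel of the
  Abel-Jacobi map of the target;
* the theorem of Abel: the kernel is zero for divisors. -/
structure AJKernel (N : ∀ X : 𝒱.Obj, ℕ → Submodule ℚ (C.A X)) : Prop where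
  deg : ∀ (X : 𝒱.Obj) (j : ℕ) (z : C.A X), z ∈ N X j → C.Deg j z ∧ H.cl z = 0
  stable : ∀ (X Y : 𝒱.Obj) (j i : ℕ) (Γ : C.A (X.prod Y)), C.Deg (X.dim + i - j) Γ →
    ∀ z ∈ N X j, C.act Γ z ∈ N Y i
  kills : ∀ (X Y : 𝒱.Obj) (j i : ℕ) (Γ : C.A (X.prod Y)), C.Deg (X.dim + i - j) Γ →
    Kills H Γ (2 * j - 1) → ∀ z, C.Deg j z → H.cl z = 0 → C.act Γ z ∈ N Y i
  abel : ∀ (X : 𝒱.Obj) (z : C.A X), z ∈ N X 1 → z = 0

/-- `F X j ν` is the step `F^ν CH^j(X)` of a Bloch-Beilinson filtration (conditions 1, 2, 3, 4 of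
the problem, `N` being the kernels of the Abel-Jacobi maps). -/
structure BlochBeilinson (N : ∀ X : 𝒱.Obj, ℕ → Submodule ℚ (C.A X))
    (F : ∀ X : 𝒱.Obj, ℕ → ℕ → Submodule ℚ (C.A X)) : Prop where
  anti : ∀ (X : 𝒱.Obj) (j ν : ℕ), F X j (ν + 1) ≤ F X j ν
  zero : ∀ (X : 𝒱.Obj) (j : ℕ) (z : C.A X), z ∈ F X j 0 ↔ C.Deg j z
  one : ∀ (X : 𝒱.Obj) (j : ℕ) (z : C.A X), z ∈ F X j 1 ↔ C.Deg j z ∧ H.cl z = 0
  two : ∀ (X : 𝒱.Obj) (j : ℕ), F X j 2 = N X j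
  top : ∀ (X : 𝒱.Obj) (j : ℕ), F X j (j + 1) = ⊥
  stable : ∀ (X Y : 𝒱.Obj) (j i ν : ℕ) (Γ : C.A (X.prod Y)), C.Deg (X.dim + i - j) Γ →
    ∀ z ∈ F X j ν, C.act Γ z ∈ F Y i ν
  shift : ∀ (X Y : 𝒱.Obj) (j i ν : ℕ) (Γ : C.A (X.prod Y)), C.Deg (X.dim + i - j) Γ →
    Kills H Γ (2 * j - ν) → ∀ z ∈ F X j ν, C.act Γ z ∈ F Y i (ν + 1)

/-- Homologically trivial self-correspondences of degree zero of `X` strictly lower the weights of
the Chow-Kunneth decomposition `π`: `π_b ∘ γ ∘ π_a = 0` for `b ≥ a` and all homologically trivial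
`γ ∈ CH^(dim X)(X × X)`. -/
def LowersWeights {X : 𝒱.Obj} (π : ℕ → C.A (X.prod X)) : Prop :=
  ∀ γ : C.A (X.prod X), C.Deg X.dim γ → H.cl γ = 0 → ∀ a b : ℕ, a ≤ b →
    C.comp (C.comp (π a) γ) (π b) = 0

end Pool.Agent.Q69.Murre
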