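import Pool.Agent.Q69.Murre.BBJ
import Pool.Agent.Q69.Murre.BBNDefs

/-!
# Bloch-Beilinson filtrations with `F^2` the kernel of the Abel-Jacobi map
-/

open CategoryTheory AlgebraicGeometry

universe u v w

namespace Pool.Agent.Q69.Murre

open Pool.Agent.H914 Pool.Agent.H914.VarClass Pool.Agent.H914.VarClass.Obj Pool.Agent.W492.BB
  Pool.Agent.W550.Corr Pool.Agent.TH133 Pool.Agent.Q69.BB Pool.Agent.Y148.BB

set_option linter.unusedSectionVars false

variable {k : Type u} [Field k] {𝒱 : VarClass k} {C : TheoryData.{u, v, 0} 𝒱 ℚ}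
  [hC : IsChowProj C] {K : Type w} [Field K]
  {H : WeilTheoryData.{u, v, w} C K} [hH : IsWeilProj H] {X Y Z W T : 𝒱.Obj}

include hC hH

/-- (D) for `X × Z`: homologically trivial correspondences strictly lower the weights. -/
lemma comp_zero_of_D (hXZ : MurreD H (X.prod Z)) {π : ℕ → C.A (X.prod X)}
    {ρ : ℕ → C.A (Z.prod Z)} (h : IsCK H X π) (h' : IsCK H Z ρ) {c a b : ℕ}
    {γ : C.A (X.prod Z)} (hγ : γ ∈ C.gr (X.prod Z) c) (h0 : H.cl γ = 0)
    (hab : 2 * c + a ≤ 2 * X.dim + b) : C.comp (C.comp (π a) γ) (ρ b) = 0 := by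
  by_cases ha : a ≤ 2 * X.dim
  · apply comp_zero_of_prod (H := H) h h' ha
    have h1 := (hXZ _ (h.dual.prod h') c γ).2 ⟨hγ, h0⟩
    rw [(h.dual.prod h').mem_ckFil] at h1
    exact h1.2 _ (by omega)
  · rw [h.out a (by omega), zero_comp, zero_comp]

/-- The shift property of the filtrations attached to Chow-Kunneth decompositions. -/
lemma shift_ckFil (hB : ∀ Y : 𝒱.Obj, MurreB0 H Y) (hD : ∀ Y : 𝒱.Obj, MurreD H Y)
    {π : ℕ → C.A (X.prod X)} {ρ : ℕ → C.A (Z.prod Z)} (h : IsCK H X π) (h' : IsCK H Z ρ)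
    {i i' n : ℕ} {Γ : C.A (X.prod Z)} (hΓ : C.Deg (X.dim + i' - i) Γ)
    (hk : Kills H Γ (2 * i - n)) {x : C.A X} (hx : x ∈ ckFil C π i n) :
    C.act Γ x ∈ ckFil C ρ i' (n + 1) := by
  have hst := functorial_of_B0 hB h h' hΓ hx
  rw [h.mem_ckFil] at hx
  rw [h'.mem_ckFil] at hst ⊢
  refine ⟨hst.1, fun m hm => ?_⟩
  by_cases hm' : 2 * i' + 1 - n ≤ m
  · exact hst.2 m hm'
  · by_cases h0 : (0 : ℤ) ≤ X.dim + i' - i
    · obtain ⟨c, hc⟩ := Int.eq_ofNat_of_zero_le h0
      have hΓ' : Γ ∈ C.gr (X.prod Z) c := hc ▸ hΓ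
      have h1 : x = ∑ j ∈ Finset.range (2 * X.dim + 1), C.act (π j) x := by
        rw [← act_sum, h.sum, act_dg]
      rw [h1, act_map_sum, act_map_sum]
      apply Finset.sum_eq_zero
      intro j _
      by_cases hj : 2 * i + 1 - n ≤ j
      · rw [hx.2 j hj, TheoryData.act_map_zero, TheoryData.act_map_zero]
      · by_cases hjj : 2 * c + j < 2 * X.dim + m
        · have h2 := comp_zero_of_B0 (hB (X.prod Z)) h h' (i := c) (j := j) (b := m) hΓ' hjj
          rw [← C.act_comp, ← C.act_comp, ← comp_assoc, h2, TheoryData.act_zero]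
        · -- the remaining case `j = 2 i - n`, `m = 2 i' - n`
          have e : 2 * (i : ℤ) - n = j := by omega
          have e2 : 2 * c + j = 2 * X.dim + m := by omega
          set Γ' := C.comp (C.comp (π j) Γ) (ρ m) with hΓ'def
          have hd1 : C.Deg ((c : ℕ) : ℤ) (C.comp (π j) Γ) :=
            comp_mem_deg (h.deg j) (show C.Deg (c : ℤ) Γ from hΓ') (by ring)
          have hd : Γ' ∈ C.gr (X.prod Z) c :=
            comp_mem_deg hd1 (h'.deg m) (c := (c : ℤ)) (by ring)
          have h0' : H.cl Γ' = 0 := by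
            apply hom_zero_of_act H
            intro a
            have h3 : H.actL (H.cl Γ') = 0 := by
              apply ext_gr H
              intro l b hb
              rw [LinearMap.zero_apply, TheoryData.actL_apply, hΓ'def, actH_comp, actH_comp,
                h.actH_eq j l hb]
              split_ifs with hl
              · rw [hk b (by rw [e, ← hl]; exact hb), TheoryData.act_map_zero]
              · rw [TheoryData.act_map_zero, TheoryData.act_map_zero]
            exact LinearMap.congr_fun h3 a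
          have h4 := comp_zero_of_D (hD (X.prod Z)) h h' hd h0' (a := j) (b := m) (by omega)
          have h5 : C.comp (C.comp (π j) Γ') (ρ m) = Γ' := by
            have h6 : C.comp (π j) Γ' = Γ' := by
              rw [hΓ'def, ← comp_assoc C (π j), ← comp_assoc C (π j) (π j), h.idem]
            rw [h6, hΓ'def, comp_assoc C (C.comp (π j) Γ) (ρ m) (ρ m), h'.idem]
          rw [h5] at h4
          rw [← C.act_comp, ← C.act_comp, ← comp_assoc, ← hΓ'def, h4, C.act_zero]
    · have h1 : Γ = 0 := by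
        have h2 : Γ ∈ C.gr (X.prod Z) (X.dim + i' - i) := hΓ
        rw [C.gr_neg _ _ (by omega)] at h2
        exact (Submodule.mem_bot ℚ).1 h2
      rw [h1, C.act_zero, TheoryData.act_map_zero]

/-- The filtrations of Chow-Kunneth decompositions as a Bloch-Beilinson filtration with
`F^2 = N`. -/
lemma ckFil_isBlochBeilinson {N : ∀ X : 𝒱.Obj, ℕ → Submodule ℚ (C.A X)}
    (hN : IsAbelJacobiKernel H N) (π : ∀ X : 𝒱.Obj, ℕ → C.A (X.prod X))
    (hπ : ∀ X, IsCK H X (π X)) (hS : ∀ X, SL H (fun i => cr (π X i)))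
    (hB1 : ∀ X, MurreB1 H X)
    (hJ : ∀ (X : 𝒱.Obj) (i : ℕ), ∀ x ∈ N X i, C.act (π X (2 * i - 1)) x = 0) :
    IsBlochBeilinsonOn H N (fun _ => True) (fun X j ν => ckFil C (π X) j ν) := by
  have hB : ∀ X : 𝒱.Obj, MurreB0 H X := fun X => (all_of_SL (isCK_cr (hπ X)) (hS X)).2.2.1
  have hD : ∀ X : 𝒱.Obj, MurreD H X := fun X => (all_of_SL (isCK_cr (hπ X)) (hS X)).1
  refine ⟨?_, ?_, ?_, ?_, ?_, ?_, ?_⟩
  · exact fun X _ j ν => ckFil_anti (hπ X) j (Nat.le_succ ν)
  · intro X _ j z
    change z ∈ ckFil C (π X) j 0 ↔ _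
    rw [hB X (π X) (hπ X) j]
  · exact fun X _ j z => hD X (π X) (hπ X) j z
  · intro X _ j
    apply le_antisymm
    · intro x hx
      have hx1 := (hD X (π X) (hπ X) j x).1 (ckFil_anti (hπ X) j (Nat.le_succ 1) hx)
      change x ∈ ckFil C (π X) j 2 at hx
      rw [(hπ X).mem_ckFil] at hx
      have h1 : x = ∑ a ∈ Finset.range (2 * X.dim + 1), C.act (π X a) x := by
        rw [← act_sum, (hπ X).sum, act_dg]
      rw [h1]
      apply Submodule.sum_mem
      intro a _
      by_cases ha : 2 * j + 1 - 2 ≤ a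
      · rw [hx.2 a ha]
        exact Submodule.zero_mem _
      · refine hN.kills X X j j (π X a) (gr_congr (by ring) ((hπ X).deg a)) ?_ x hx1.1 hx1.2
        intro b hb
        exact (hπ X).act_ne a _ b (by omega) hb
    · intro x hx
      obtain ⟨h1, h2⟩ := hN.deg X j x hx
      have h3 := (hD X (π X) (hπ X) j x).2 ⟨h1, h2⟩
      change x ∈ ckFil C (π X) j 2
      rw [(hπ X).mem_ckFil] at h3 ⊢
      refine ⟨h3.1, fun a ha => ?_⟩
      by_cases ha' : 2 * j + 1 - 1 ≤ a
      · exact h3.2 a ha'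
      · have e : a = 2 * j - 1 := by omega
        rw [e]
        exact hJ X j x hx
  · exact fun X _ j => hB1 X (π X) (hπ X) j
  · exact fun X Y _ _ j i ν Γ hΓ z hz => functorial_of_B0 hB (hπ X) (hπ Y) hΓ hz
  · exact fun X Y _ _ j i ν Γ hΓ hk z hz => shift_ckFil hB hD (hπ X) (hπ Y) hΓ hk hz

/-! ### The converse -/

lemma isNilpotent_of_isBBN {N : ∀ X : 𝒱.Obj, ℕ → Submodule ℚ (C.A X)}
    {F : ∀ X : 𝒱.Obj, ℕ → ℕ → Submodule ℚ (C.A X)}
    (hF : IsBlochBeilinsonOn H N (fun _ => True) F) (γ : Cor C X) (hγ : HT H γ) :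
    IsNilpotent γ := by
  have key : ∀ n : ℕ, uc (γ ^ n) ∈ F (X.prod X) X.dim n := by
    intro n
    induction n with
    | zero =>
      exact (hF.zero _ trivial _ _).2 (dg_mem C X)
    | succ n ih =>
      have h1 : uc (γ ^ (n + 1)) = C.act (tens C (dg C X) (uc γ)) (uc (γ ^ n)) := by
        rw [act_tens C (ch_comm C), tp_dg, dg_comp, pow_succ']
        rfl
      rw [h1]
      refine hF.shift (X.prod X) (X.prod X) trivial trivial X.dim X.dim n _ ?_ ?_ _ ih
      · have h2 := tens_mem C (dg_mem C X) hγ.1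
        exact gr_congr (by rw [dim_prod]; push_cast; ring) h2
      · refine kills_tens fun l' a b ha hb => Or.inr ?_
        have h3 : H.cl (uc γ) = 0 := hγ.2
        rw [h3, TheoryData.act_zero]
  refine ⟨X.dim + 1, ?_⟩
  have h1 := key (X.dim + 1)
  rw [hF.top _ trivial] at h1
  exact (Submodule.mem_bot ℚ).1 h1

lemma vanish_of_isBBN {N : ∀ X : 𝒱.Obj, ℕ → Submodule ℚ (C.A X)}
    {F : ∀ X : 𝒱.Obj, ℕ → ℕ → Submodule ℚ (C.A X)}
    (hF : IsBlochBeilinsonOn H N (fun _ => True) F)
    {π : ℕ → C.A (X.prod X)} (hπ : IsCK H X π) {i j : ℕ} {x : C.A X} {n0 : ℕ} (hx : x ∈ F X i n0)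
    (h : j < i ∨ ∀ n ≥ n0, (j : ℤ) ≠ 2 * i - n) : C.act (π j) x = 0 := by
  have hidem : C.act (π j) (C.act (π j) x) = C.act (π j) x := by
    rw [← C.act_comp, hπ.idem]
  have hstep : ∀ n : ℕ, (j : ℤ) ≠ 2 * i - n → C.act (π j) x ∈ F X i n →
      C.act (π j) x ∈ F X i (n + 1) := by
    intro n hn hx
    rw [← hidem]
    refine hF.shift X X trivial trivial i i n (π j) (gr_congr (by ring) (hπ.deg j)) ?_ _ hx
    intro a ha
    exact hπ.act_ne j _ a (Ne.symm hn) ha
  have h0 : C.act (π j) x ∈ F X i n0 :=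
    hF.stable X X trivial trivial i i n0 (π j) (gr_congr (by ring) (hπ.deg j)) x hx
  have hle : ∀ n m : ℕ, n ≤ m → F X i m ≤ F X i n := by
    intro n m hnm
    induction hnm with
    | refl => exact le_rfl
    | step _ ih => exact (hF.anti X trivial i _).trans ih
  have key : ∀ n : ℕ, n ≤ i + 1 → C.act (π j) x ∈ F X i n := by
    intro n
    induction n with
    | zero => exact fun _ => hle 0 n0 (Nat.zero_le _) h0
    | succ n ih =>
      intro hn
      by_cases hn0 : n + 1 ≤ n0
      · exact hle _ _ hn0 h0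
      · apply hstep n _ (ih (by omega))
        rcases h with h | h
        · omega
        · exact h n (by omega)
  have h1 := key (i + 1) le_rfl
  rw [hF.top X trivial i] at h1
  exact (Submodule.mem_bot ℚ).1 h1

lemma middle_of_isBBN {N : ∀ X : 𝒱.Obj, ℕ → Submodule ℚ (C.A X)}
    {F : ∀ X : 𝒱.Obj, ℕ → ℕ → Submodule ℚ (C.A X)}
    (hF : IsBlochBeilinsonOn H N (fun _ => True) F) (hK : KunnethConjecture H) (X : 𝒱.Obj) :
    ∃ π : ℕ → C.A (X.prod X), IsCK H X π ∧ MiddleD C H π ∧
      ckFil C π X.dim (X.dim + 1) = ⊥ ∧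
      ∀ i : ℕ, ∀ x ∈ N X i, C.act (π (2 * i - 1)) x = 0 := by
  choose κ hκ hκ' using hK X
  obtain ⟨π, hπ⟩ := exists_ck_of_kunneth (isNilpotent_of_isBBN hF) (fun i => cr (κ i)) hκ
    (fun i m a ha => hκ' i m a ha)
  refine ⟨π, hπ, fun γ hγ h0 => ?_, ?_, ?_⟩
  · have hs : IsCK H (X.prod X) (selfProd C π π) := hπ.dual.prod hπ
    rw [hs.mem_ckFil]
    refine ⟨hγ, fun j hj => ?_⟩
    exact vanish_of_isBBN hF hs ((hF.one _ trivial _ _).2 ⟨hγ, h0⟩)
      (Or.inr fun n hn => by push_cast; omega)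
  · rw [eq_bot_iff]
    intro x hx
    rw [hπ.mem_ckFil] at hx
    rw [Submodule.mem_bot]
    have h1 : x = ∑ j ∈ Finset.range (2 * X.dim + 1), C.act (π j) x := by
      rw [← act_sum, hπ.sum, act_dg]
    rw [h1]
    apply Finset.sum_eq_zero
    intro j _
    by_cases hj : j < X.dim
    · exact vanish_of_isBBN hF hπ ((hF.zero _ trivial _ _).2 hx.1) (Or.inl hj)
    · exact hx.2 j (by omega)
  · intro i x hx
    have hx2 : x ∈ F X i 2 := by rw [hF.two X trivial i]; exact hx
    rcases Nat.eq_zero_or_pos i with rfl | hi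
    · have h1 := hF.anti X trivial 0 1 hx2
      rw [hF.top X trivial 0] at h1
      rw [(Submodule.mem_bot ℚ).1 h1, C.act_map_zero]
    · exact vanish_of_isBBN hF hπ hx2 (Or.inr fun n hn => by omega)

/-- Transposes of graphs. -/
lemma tp_cograph (f : X ⟶ Y) : tp C (C.cograph f) = C.graph f := by
  rw [tp_eq_push, TheoryData.cograph, TheoryData.graph, ← C.push_comp]
  congr 1
  have e1 : Obj.lift f (𝟙 X) ≫ sw Y X = Obj.lift (𝟙 X) f := by
    apply prod_ext <;> simp [sw, comp_lift]
  rw [e1]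

/-- A correspondence from a variety mapping to `X`, pushed forward, is a composition. -/
lemma push_prodMap_eq (ι : T ⟶ X) (w : C.A (T.prod Y)) :
    C.push (prodMap ι (𝟙 Y)) w = C.comp (C.cograph ι) w := by
  have h1 : C.push (prodMap ι (𝟙 Y)) w = tp C (C.push (prodMap (𝟙 Y) ι) (tp C w)) := by
    rw [tp_eq_push, tp_eq_push, ← C.push_comp, ← C.push_comp]
    congr 1
    have e1 : sw T Y ≫ prodMap (𝟙 Y) ι ≫ sw Y X = prodMap ι (𝟙 Y) := by
      apply prod_ext <;> simp [sw, prodMap, comp_lift]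
    rw [e1]
  rw [h1, ← comp_graph, tp_comp C (ch_comm C), tp_tp, ← tp_cograph (H := H), tp_tp]

/-- The kernel of the Abel-Jacobi map and the second step of the filtration. -/
lemma le_ckFil_two {N : ∀ X : 𝒱.Obj, ℕ → Submodule ℚ (C.A X)} (hN : IsAbelJacobiKernel H N)
    (hD : MurreD H X) {π : ℕ → C.A (X.prod X)} (hπ : IsCK H X π) {i : ℕ} (hi : 0 < i) :
    (∀ x ∈ N X i, C.act (π (2 * i - 1)) x = 0) ↔ N X i ≤ ckFil C π i 2 := by
  constructor
  · intro h x hx
    obtain ⟨h1, h2⟩ := hN.deg X i x hx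
    have h3 := (hD π hπ i x).2 ⟨h1, h2⟩
    rw [hπ.mem_ckFil] at h3 ⊢
    refine ⟨h3.1, fun a ha => ?_⟩
    by_cases ha' : 2 * i + 1 - 1 ≤ a
    · exact h3.2 a ha'
    · have e : a = 2 * i - 1 := by omega
      rw [e]
      exact h x hx
  · intro h x hx
    have h1 := h hx
    rw [hπ.mem_ckFil] at h1
    exact h1.2 (2 * i - 1) (by omega)

/-- The injectivity of the Abel-Jacobi maps on `h^(2i-1)` follows from the middle case
`dim X = 2i - 1`. -/
lemma aj_of_middle (hBS : BlochSrinivas C) {N : ∀ X : 𝒱.Obj, ℕ → Submodule ℚ (C.A X)}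
    (hN : IsAbelJacobiKernel H N) (π : ∀ X : 𝒱.Obj, ℕ → C.A (X.prod X))
    (hπ : ∀ X, IsCK H X (π X)) (hS : ∀ X, SL H (fun i => cr (π X i)))
    (hZ : ∀ X : 𝒱.Obj, ∀ j < X.dim, ∀ x : C.A X, C.Deg X.dim x → C.act (π X j) x = 0)
    (hJ : ∀ (X : 𝒱.Obj) (i : ℕ), 2 * i = X.dim + 1 → ∀ x ∈ N X i,
      C.act (π X X.dim) x = 0) (d : ℕ) :
    ∀ (X : 𝒱.Obj) (i : ℕ), X.dim = d → ∀ x ∈ N X i, C.act (π X (2 * i - 1)) x = 0 := by
  have hall := fun X => all_of_SL (isCK_cr (hπ X)) (hS X)
  have hB : ∀ X : 𝒱.Obj, MurreB0 H X := fun X => (hall X).2.2.1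
  have hD : ∀ X : 𝒱.Obj, MurreD H X := fun X => (hall X).1
  have hC' : ∀ X : 𝒱.Obj, MurreC H X := fun X => (hall X).2.1
  induction d using Nat.strong_induction_on with
  | _ d ih =>
    intro X i hX x hx
    rcases Nat.eq_zero_or_pos i with rfl | hi
    · obtain ⟨h1, h2⟩ := hN.deg X 0 x hx
      have h3 : x = 0 := eq_zero_of_deg_zero (H := H) (by exact_mod_cast h1) h2
      rw [h3, C.act_map_zero]
    rcases lt_trichotomy (2 * i - 1) X.dim with hlt | heq | hgt
    · -- `2i - 1 < dim X`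
      have hspan := hBS X X X.dim (π X (2 * i - 1)) ((hπ X).deg _) (hZ X _ hlt)
      set α := C.act (π X (2 * i - 1)) x with hα
      have hαα : C.act (π X (2 * i - 1)) (C.act (π X (2 * i - 1)) α) = α := by
        rw [hα, ← C.act_comp, ← C.act_comp, (hπ X).idem, (hπ X).idem]
      have hαN : α ∈ N X i :=
        hN.stable X X i i _ (gr_congr (by ring) ((hπ X).deg _)) x hx
      have h3 : Submodule.span ℚ {c | ∃ (T : 𝒱.Obj) (ι : T ⟶ X) (w : C.A (T.prod X)),
          T.dim + 1 = X.dim ∧ C.Deg ((X.dim : ℤ) - 1) w ∧ c = C.down (prodMap ι (𝟙 X)) w} ≤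
          LinearMap.ker ((C.actL (π X (2 * i - 1))) ∘ₗ (actB C (X := X) (Y := X)).flip α) := by
        rw [Submodule.span_le]
        rintro _ ⟨T, ι, w, hT, hw, rfl⟩
        rw [SetLike.mem_coe, LinearMap.mem_ker, LinearMap.comp_apply, LinearMap.flip_apply,
          actB_apply, TheoryData.actL_apply]
        change C.act (π X (2 * i - 1)) (C.act (C.push (prodMap ι (𝟙 X)) w) α) = 0
        rw [act_push_prodMap]
        have h1 : C.pull ι α = ∑ m ∈ Finset.range (2 * T.dim + 1),
            C.act (π T m) (C.pull ι α) := by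
          rw [← act_sum, (hπ T).sum, act_dg]
        rw [h1, act_map_sum, act_map_sum]
        apply Finset.sum_eq_zero
        intro m _
        rcases lt_trichotomy m (2 * i - 1) with hm | hm | hm
        · -- lower weights are killed on the target
          have h2 : C.comp (C.comp (π T m) w) (π X (2 * i - 1)) = 0 := by
            refine comp_zero_of_B0 (hB (T.prod X)) (hπ T) (hπ X) (i := T.dim)
              (gr_congr (by omega) hw) (by omega)
          rw [← C.act_comp, ← C.act_comp, ← comp_assoc, h2, C.act_zero]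
        · subst hm
          have h2 : C.pull ι α ∈ N T i := by
            rw [← C.act_cograph ι]
            exact hN.stable X T i i _ (gr_congr (by ring) (cograph_mem ι)) α hαN
          rw [ih T.dim (by omega) T i rfl _ h2, C.act_map_zero, C.act_map_zero]
        · have h2 : C.comp (C.comp (π X (2 * i - 1)) (C.cograph ι)) (π T m) = 0 :=
            comp_zero_of_B0 (hB (X.prod T)) (hπ X) (hπ T) (i := X.dim) (cograph_mem ι)
              (by omega)
          have h5 : C.act (π T m) (C.pull ι α) = 0 := by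
            rw [hα, ← C.act_cograph ι, ← C.act_comp, ← C.act_comp, ← comp_assoc, h2, C.act_zero]
          rw [h5, C.act_map_zero, C.act_map_zero]
      have h4 := h3 hspan
      rw [LinearMap.mem_ker, LinearMap.comp_apply, LinearMap.flip_apply, actB_apply,
        TheoryData.actL_apply, hαα] at h4
      exact h4
    · rw [heq]
      exact hJ X i (by omega) x hx
    · -- `2i - 1 > dim X`: use the transposed decomposition
      have hπ' := (hπ X).dual
      have hkey : ∀ x ∈ N X i, C.act (dualCK C (π X) (2 * i - 1)) x = 0 := by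
        intro x hx
        by_cases hle : 2 * i - 1 ≤ 2 * X.dim
        swap
        · rw [hπ'.out _ (by omega), C.act_zero]
        set j := 2 * X.dim - (2 * i - 1) with hj
        have hd : dualCK C (π X) (2 * i - 1) = tp C (π X j) := if_pos hle
        have hspan := hBS X X X.dim (π X j) ((hπ X).deg _) (hZ X _ (by omega))
        have hid : C.act (dualCK C (π X) (2 * i - 1)) (C.act (tp C (π X j)) x) =
            C.act (dualCK C (π X) (2 * i - 1)) x := by
          rw [← hd, ← C.act_comp, hπ'.idem]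
        rw [← hid]
        have h3 : Submodule.span ℚ {c | ∃ (T : 𝒱.Obj) (ι : T ⟶ X) (w : C.A (T.prod X)),
            T.dim + 1 = X.dim ∧ C.Deg ((X.dim : ℤ) - 1) w ∧ c = C.down (prodMap ι (𝟙 X)) w} ≤
            LinearMap.ker ((C.actL (dualCK C (π X) (2 * i - 1))) ∘ₗ
              ((actB C (X := X) (Y := X)).flip x) ∘ₗ (C.pull (sw X X)).toLinearMap) := by
          rw [Submodule.span_le]
          rintro _ ⟨T, ι, w, hT, hw, rfl⟩
          rw [SetLike.mem_coe, LinearMap.mem_ker, LinearMap.comp_apply, LinearMap.comp_apply,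
            LinearMap.flip_apply, actB_apply, TheoryData.actL_apply]
          change C.act (dualCK C (π X) (2 * i - 1))
            (C.act (tp C (C.push (prodMap ι (𝟙 X)) w)) x) = 0
          rw [push_prodMap_eq (H := H), tp_comp C (ch_comm C), tp_cograph (H := H), C.act_comp]
          have hw' : C.Deg ((X.dim : ℤ) - 1) (tp C w) := C.pull_mem _ hw
          have hy : C.act (tp C w) x ∈ N T (i - 1) := by
            refine hN.stable X T i (i - 1) _ (gr_congr ?_ hw') x hx
            rw [Nat.cast_sub hi]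
            push_cast
            ring
          set y := C.act (tp C w) x with hydef
          have h1 : y = ∑ m ∈ Finset.range (2 * T.dim + 1), C.act (π T m) y := by
            rw [← act_sum, (hπ T).sum, act_dg]
          rw [h1, act_map_sum, act_map_sum]
          apply Finset.sum_eq_zero
          intro m _
          have hyD := hN.deg T (i - 1) y hy
          have hyF := (hD T (π T) (hπ T) (i - 1) y).2 hyD
          rw [(hπ T).mem_ckFil] at hyF
          by_cases hm : 2 * (i - 1) + 1 - 1 ≤ m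
          · rw [hyF.2 m hm, C.act_map_zero, C.act_map_zero]
          · by_cases hm2 : m = 2 * (i - 1) - 1
            · rw [hm2, ih T.dim (by omega) T (i - 1) rfl y hy, C.act_map_zero, C.act_map_zero]
            · have h2 : C.comp (C.comp (π T m) (C.graph ι)) (dualCK C (π X) (2 * i - 1)) = 0 := by
                refine comp_zero_of_B0 (hB (T.prod X)) (hπ T) hπ' (i := X.dim)
                  (graph_deg (H := H) ι) (by omega)
              rw [← C.act_comp, ← C.act_comp, ← comp_assoc, h2, C.act_zero]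
        have h4 := h3 hspan
        rw [LinearMap.mem_ker, LinearMap.comp_apply, LinearMap.comp_apply,
          LinearMap.flip_apply, actB_apply, TheoryData.actL_apply] at h4
        exact h4
      have h5 := (le_ckFil_two hN (hD X) hπ' hi).1 hkey
      rw [hC' X _ _ hπ' (hπ X)] at h5
      exact (le_ckFil_two hN (hD X) (hπ X) hi).2 h5 x hx

omit hC hH in
/-- The Kunneth conjecture and the existence of a Bloch-Beilinson filtration with `F^2` the kernel
of the Abel-Jacobi map. -/
theorem isBBN_iff_middle (C : TheoryData.{u, v, 0} 𝒱 ℚ) [hC : IsChowComplex C] {K : Type w}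
    [Field K] (H : WeilTheoryData.{u, v, w} C K) [IsWeilProj H]
    (N : ∀ X : 𝒱.Obj, ℕ → Submodule ℚ (C.A X)) (hN : IsAbelJacobiKernel H N) :
    (KunnethConjecture H ∧ ∃ F, IsBlochBeilinsonOn H N (fun _ => True) F) ↔
      ∀ X : 𝒱.Obj, ∃ π : ℕ → C.A (X.prod X), IsCK H X π ∧ MiddleD C H π ∧
        ckFil C π X.dim (X.dim + 1) = ⊥ ∧
        ∀ i : ℕ, 2 * i = X.dim + 1 → ∀ x ∈ N X i, C.act (π X.dim) x = 0 := by
  constructor
  · rintro ⟨hK, F, hF⟩ X
    obtain ⟨π, h1, h2, h3, h4⟩ := middle_of_isBBN hF hK X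
    refine ⟨π, h1, h2, h3, fun i hi x hx => ?_⟩
    have e : X.dim = 2 * i - 1 := by omega
    rw [e]
    exact h4 i x hx
  · intro h
    choose π hπ hM hZ hJ using h
    have hS : ∀ X, SL H (fun i => cr (π X i)) := fun X => SL_of_middle (hπ X) (hM X)
    have hB : ∀ X : 𝒱.Obj, MurreB0 H X := fun X => (all_of_SL (isCK_cr (hπ X)) (hS X)).2.2.1
    have hZ' : ∀ X : 𝒱.Obj, ∀ j < X.dim, ∀ x : C.A X, C.Deg X.dim x → C.act (π X j) x = 0 :=
      fun X j hj x hx => zero_of_ckFil (hπ X) (hZ X) j hj x hx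
    refine ⟨fun X m => ⟨π X m, (hπ X).deg m, fun l a ha => (hπ X).actH_eq m l ha⟩,
      _, ckFil_isBlochBeilinson hN π hπ hS ?_ fun X i x hx =>
        aj_of_middle hC.blochSrinivas hN π hπ hS hZ' hJ X.dim X i rfl x hx⟩
    exact murreB1_of_zero hC.blochSrinivas hB fun X =>
      ⟨π X, hπ X, hZ' X⟩

omit hC hH in
lemma isBlochBeilinsonOn_iff {H : WeilTheoryData.{u, v, w} C K}
    {N : ∀ X : 𝒱.Obj, ℕ → Submodule ℚ (C.A X)}
    {F : ∀ X : 𝒱.Obj, ℕ → ℕ → Submodule ℚ (C.A X)} :
    IsBlochBeilinsonOn H N (fun _ => True) F ↔ BlochBeilinson H N F :=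
  ⟨fun h => ⟨fun X => h.anti X trivial, fun X => h.zero X trivial, fun X => h.one X trivial,
    fun X => h.two X trivial, fun X => h.top X trivial, fun X Y => h.stable X Y trivial trivial,
    fun X Y => h.shift X Y trivial trivial⟩,
  fun h => ⟨fun X _ => h.anti X, fun X _ => h.zero X, fun X _ => h.one X,
    fun X _ => h.two X, fun X _ => h.top X, fun X Y _ _ => h.stable X Y,
    fun X Y _ _ => h.shift X Y⟩⟩

lemma middleD_iff {π : ℕ → C.A (X.prod X)} (hπ : IsCK H X π) :
    MiddleD C H π ↔ LowersWeights H π := by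
  constructor
  · intro h γ hγ h0 a b hab
    have h1 := SL_of_middle hπ h (cr γ) ⟨hγ, h0⟩ a b hab
    rw [mul_assoc] at h1
    exact h1
  · intro h γ hγ h0
    have hS : SL H (fun i => cr (π i)) := by
      intro γ hγ a b hab
      have h1 := h (uc γ) hγ.1 hγ.2 a b hab
      rw [mul_assoc]
      exact h1
    have hs : IsCK H (X.prod X) (selfProd C π π) := hπ.dual.prod hπ
    rw [hs.mem_ckFil]
    refine ⟨hγ, fun r hr => ?_⟩
    unfold selfProd
    rw [act_sum]
    apply Finset.sum_eq_zero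
    intro a ha
    rw [Finset.mem_range] at ha
    rw [act_tens C (ch_comm C)]
    unfold transCK
    split_ifs with ha'
    · rw [tp_tp]
      exact h γ hγ h0 _ _ (by omega)
    · rw [tp_zero, zero_comp, zero_comp]

omit hC hH in
/-- The final form. -/
theorem blochBeilinson_iff (C : TheoryData.{u, v, 0} 𝒱 ℚ) [hC : IsChowComplex C] {K : Type w}
    [Field K] (H : WeilTheoryData.{u, v, w} C K) [IsWeilProj H]
    (N : ∀ X : 𝒱.Obj, ℕ → Submodule ℚ (C.A X)) (hN : AJKernel H N) :
    (KunnethConjecture H ∧ ∃ F, BlochBeilinson H N F) ↔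
      ∀ X : 𝒱.Obj, ∃ π : ℕ → C.A (X.prod X), IsCK H X π ∧ LowersWeights H π ∧
        ckFil C π X.dim (X.dim + 1) = ⊥ ∧
        ∀ i : ℕ, 2 * i = X.dim + 1 → ∀ x ∈ N X i, C.act (π X.dim) x = 0 := by
  have h1 := isBBN_iff_middle C H N ⟨hN.deg, hN.stable, hN.kills, hN.abel⟩
  simp only [isBlochBeilinsonOn_iff] at h1
  rw [h1]
  constructor
  · intro h X
    obtain ⟨π, h1, h2, h3⟩ := h X
    exact ⟨π, h1, (middleD_iff h1).1 h2, h3⟩
  · intro h X
    obtain ⟨π, h1, h2, h3⟩ := h X
    exact ⟨π, h1, (middleD_iff h1).2 h2, h3⟩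

end Pool.Agent.Q69.Murre
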